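import Mathlib.Analysis.Calculus.MeanValue
import Mathlib.Analysis.LocallyConvex.AbsConvexOpen
import Pool.Agent.BoltzD.Calc.Cube
import Mathlib.Order.CompleteLattice.Defs
import Mathlib.Order.ConditionallyCompleteLattice.Defs
import Mathlib.Tactic.Monotonicity.Lemmas
import Mathlib.Order.CompletePartialOrder
import Pool.Agent.BoltzD.Herm.Basic

-- ======== part 0: formerly Pool.Agent.BoltzD.Calc.Class
section MrgPart0

-- ======== part 0: formerly Pool.Agent.BoltzD.Calc.HD
section MrgPart0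

/-! Basic rules for the slope derivative `HD` in a topological vector space. -/

set_option autoImplicit false
set_option linter.unusedSectionVars false

open Filter Topology

namespace Pool.Agent.BoltzC

variable [Dim]

section TVS

variable {F : Type*} [AddCommGroup F] [Module ℝ F] [TopologicalSpace F]
variable {F₁ : Type*} [AddCommGroup F₁] [Module ℝ F₁] [TopologicalSpace F₁]
variable {F₂ : Type*} [AddCommGroup F₂] [Module ℝ F₂] [TopologicalSpace F₂]

theorem HD.unique [T2Space F] {γ : ℝ → F} {a b : F} {t : ℝ} (ha : HD γ a t) (hb : HD γ b t) :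
    a = b := tendsto_nhds_unique ha hb

theorem HD.congr_deriv {γ : ℝ → F} {a b : F} {t : ℝ} (ha : HD γ a t) (h : a = b) : HD γ b t :=
  h ▸ ha

theorem HD.congr {γ δ : ℝ → F} {a : F} {t : ℝ} (ha : HD γ a t) (h : ∀ s, γ s = δ s) :
    HD δ a t := by
  have : γ = δ := funext h
  exact this ▸ ha

theorem HD.congr_of_eventuallyEq {γ δ : ℝ → F} {a : F} {t : ℝ} (ha : HD γ a t)
    (h : γ =ᶠ[𝓝 t] δ) : HD δ a t := by
  unfold HD at *
  refine ha.congr' ?_
  have h1 : Tendsto (fun h : ℝ => t + h) (𝓝[≠] 0) (𝓝 t) := by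
    have : Tendsto (fun h : ℝ => t + h) (𝓝 0) (𝓝 (t + 0)) :=
      (continuous_const.add continuous_id).tendsto 0
    rw [add_zero] at this
    exact this.mono_left nhdsWithin_le_nhds
  filter_upwards [h1.eventually h] with s hs
  rw [hs, h.eq_of_nhds]

theorem hd_shift {γ : ℝ → F} {a : F} {t : ℝ} : HD (fun h => γ (t + h)) a 0 ↔ HD γ a t := by
  unfold HD
  simp only [zero_add, add_zero]

theorem HD.const (c : F) (t : ℝ) : HD (fun _ => c) 0 t := by
  unfold HD
  simpa using tendsto_const_nhds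

theorem HD.clm {γ : ℝ → F₁} {a : F₁} {t : ℝ} (ha : HD γ a t) (T : F₁ →L[ℝ] F₂) :
    HD (fun s => T (γ s)) (T a) t := by
  unfold HD at *
  have := (T.continuous.tendsto a).comp ha
  refine this.congr fun h => ?_
  simp only [Function.comp, map_smul, map_sub]

variable [IsTopologicalAddGroup F] [ContinuousSMul ℝ F]
variable [IsTopologicalAddGroup F₁] [ContinuousSMul ℝ F₁]
variable [IsTopologicalAddGroup F₂] [ContinuousSMul ℝ F₂]

theorem HD.tendsto {γ : ℝ → F} {a : F} {t : ℝ} (ha : HD γ a t) :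
    Tendsto (fun h => γ (t + h)) (𝓝[≠] 0) (𝓝 (γ t)) := by
  have h0 : Tendsto (fun h : ℝ => h) (𝓝[≠] 0) (𝓝 0) := tendsto_id.mono_left nhdsWithin_le_nhds
  have h1 := (h0.smul ha).add (tendsto_const_nhds (x := γ t))
  rw [zero_smul, zero_add] at h1
  refine h1.congr' ?_
  filter_upwards [self_mem_nhdsWithin] with h hh
  have hh' : h ≠ 0 := hh
  rw [smul_smul, mul_inv_cancel₀ hh', one_smul, sub_add_cancel]

theorem HD.continuousAt {γ : ℝ → F} {a : F} {t : ℝ} (ha : HD γ a t) : ContinuousAt γ t := by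
  have h1 : ContinuousAt (fun h => γ (t + h)) 0 := by
    rw [← continuousWithinAt_compl_self]
    unfold ContinuousWithinAt
    simpa using ha.tendsto
  have h2 : ContinuousAt (fun s : ℝ => s - t) t := by fun_prop
  have h3 := ContinuousAt.comp_of_eq h1 h2 (by simp)
  refine h3.congr (Eventually.of_forall fun s => ?_)
  simp

theorem HD.add {γ δ : ℝ → F} {a b : F} {t : ℝ} (ha : HD γ a t) (hb : HD δ b t) :
    HD (fun s => γ s + δ s) (a + b) t := by
  unfold HD at *
  refine (ha.add hb).congr fun h => ?_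
  rw [← smul_add]
  congr 1
  beta_reduce
  abel

theorem HD.neg {γ : ℝ → F} {a : F} {t : ℝ} (ha : HD γ a t) : HD (fun s => -γ s) (-a) t := by
  unfold HD at *
  refine ha.neg.congr fun h => ?_
  rw [← smul_neg]
  congr 1
  beta_reduce
  abel

theorem HD.sub {γ δ : ℝ → F} {a b : F} {t : ℝ} (ha : HD γ a t) (hb : HD δ b t) :
    HD (fun s => γ s - δ s) (a - b) t := by
  simpa only [sub_eq_add_neg] using ha.add hb.neg

theorem HD.const_smul {γ : ℝ → F} {a : F} {t : ℝ} (c : ℝ) (ha : HD γ a t) :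
    HD (fun s => c • γ s) (c • a) t := by
  unfold HD at *
  refine (ha.const_smul c).congr fun h => ?_
  rw [← smul_sub, smul_comm]

theorem HD.sum {ι : Type*} (S : Finset ι) {γ : ι → ℝ → F} {a : ι → F} {t : ℝ}
    (h : ∀ i ∈ S, HD (γ i) (a i) t) : HD (fun s => ∑ i ∈ S, γ i s) (∑ i ∈ S, a i) t := by
  classical
  induction S using Finset.induction_on with
  | empty => simpa using HD.const (0 : F) t
  | insert j S hj ih =>
    simp only [Finset.sum_insert hj]
    exact (h j (Finset.mem_insert_self _ _)).add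
      (ih fun i hi => h i (Finset.mem_insert_of_mem hi))

/-- Product rule for a jointly continuous bilinear map. -/
theorem HD.bilin (B : F₁ →ₗ[ℝ] F₂ →ₗ[ℝ] F) (hB : Continuous fun p : F₁ × F₂ => B p.1 p.2)
    {γ : ℝ → F₁} {δ : ℝ → F₂} {a : F₁} {b : F₂} {t : ℝ} (ha : HD γ a t) (hb : HD δ b t) :
    HD (fun s => B (γ s) (δ s)) (B a (δ t) + B (γ t) b) t := by
  have h1 := (hB.tendsto (a, δ t)).comp (Tendsto.prodMk_nhds ha hb.tendsto)
  have h2 := (hB.tendsto (γ t, b)).comp (Tendsto.prodMk_nhds (tendsto_const_nhds (x := γ t)) hb)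
  unfold HD
  refine (h1.add h2).congr fun h => ?_
  simp only [Function.comp, map_smul, map_sub, LinearMap.smul_apply, LinearMap.sub_apply]
  rw [← smul_add]
  congr 1
  abel

theorem hd_iff_hasDerivAt {G : Type*} [NormedAddCommGroup G] [NormedSpace ℝ G] {γ : ℝ → G} {a : G}
    {t : ℝ} : HD γ a t ↔ HasDerivAt γ a t := hasDerivAt_iff_tendsto_slope_zero.symm

theorem HD.hasDerivAt {G : Type*} [NormedAddCommGroup G] [NormedSpace ℝ G] {γ : ℝ → G} {a : G}
    {t : ℝ} (h : HD γ a t) : HasDerivAt γ a t := hd_iff_hasDerivAt.1 h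

theorem _root_.HasDerivAt.hd {G : Type*} [NormedAddCommGroup G] [NormedSpace ℝ G] {γ : ℝ → G}
    {a : G} {t : ℝ} (h : HasDerivAt γ a t) : HD γ a t := hd_iff_hasDerivAt.2 h

theorem continuous_lsmul : Continuous fun p : ℝ × F => (LinearMap.lsmul ℝ F) p.1 p.2 := by
  simpa using (continuous_smul : Continuous fun p : ℝ × F => p.1 • p.2)

theorem HD.smul {c : ℝ → ℝ} {γ : ℝ → F} {c' : ℝ} {a : F} {t : ℝ} (hc : HD c c' t)
    (ha : HD γ a t) : HD (fun s => c s • γ s) (c' • γ t + c t • a) t := by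
  simpa using HD.bilin (LinearMap.lsmul ℝ F) continuous_lsmul hc ha

theorem HD.smul_const {c : ℝ → ℝ} {c' : ℝ} {t : ℝ} (hc : HD c c' t) (v : F) :
    HD (fun s => c s • v) (c' • v) t := by
  simpa using hc.smul (HD.const v t)

theorem HD.id_smul (v : F) (t : ℝ) : HD (fun s => s • v) v t := by
  simpa using (HasDerivAt.hd (hasDerivAt_id t)).smul_const v

/-- Mean value inequality for a continuous seminorm, ordered endpoints. -/
theorem seminorm_sub_le_of_le (p : Seminorm ℝ F) (hp : Continuous p) {γ γ' : ℝ → F} {a b C : ℝ}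
    (hab : a ≤ b) (h : ∀ t ∈ Set.Icc a b, HD γ (γ' t) t) (hC : ∀ t ∈ Set.Icc a b, p (γ' t) ≤ C) :
    p (γ b - γ a) ≤ C * (b - a) := by
  have key := image_le_of_liminf_slope_right_le_deriv_boundary (f := fun t => p (γ t - γ a))
    (a := a) (b := b) (B := fun t => C * (t - a)) (B' := fun _ => C) ?_ (by simp) (by fun_prop)
    ?_ ?_
  · exact key ⟨hab, le_rfl⟩
  · intro t ht
    exact (hp.continuousAt.comp ((h t ht).continuousAt.sub continuousAt_const)).continuousWithinAt
  · intro t _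
    simpa using (((hasDerivAt_id t).sub_const a).const_mul C).hasDerivWithinAt
  · intro t ht r hr
    have ht' : t ∈ Set.Icc a b := ⟨ht.1, ht.2.le⟩
    have h1 : Tendsto (fun z : ℝ => z - t) (𝓝[>] t) (𝓝[≠] 0) := by
      refine tendsto_nhdsWithin_iff.2 ⟨?_, ?_⟩
      · have : Tendsto (fun z : ℝ => z - t) (𝓝 t) (𝓝 (t - t)) :=
          (continuous_id.sub continuous_const).tendsto t
        rw [sub_self] at this
        exact this.mono_left nhdsWithin_le_nhds
      · filter_upwards [self_mem_nhdsWithin] with z hz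
        exact sub_ne_zero.2 (ne_of_gt hz)
    have h2 := (hp.tendsto _).comp ((h t ht').comp h1)
    have h3 := h2.eventually (gt_mem_nhds (lt_of_le_of_lt (hC t ht') hr))
    refine Eventually.frequently ?_
    filter_upwards [h3, self_mem_nhdsWithin] with z hz hzt
    have hpos : 0 < z - t := sub_pos.2 hzt
    simp only [Function.comp, add_sub_cancel, map_smul_eq_mul, Real.norm_eq_abs,
      abs_of_pos (inv_pos.2 hpos)] at hz
    refine lt_of_le_of_lt ?_ hz
    rw [slope_def_field, div_eq_inv_mul]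
    refine mul_le_mul_of_nonneg_left ?_ (inv_pos.2 hpos).le
    have e : γ z - γ a = (γ z - γ t) + (γ t - γ a) := by abel
    have := map_add_le_add p (γ z - γ t) (γ t - γ a)
    rw [← e] at this
    linarith

/-- Mean value inequality for a continuous seminorm. -/
theorem seminorm_sub_le (p : Seminorm ℝ F) (hp : Continuous p) {γ γ' : ℝ → F} {a b C : ℝ}
    (h : ∀ t ∈ Set.uIcc a b, HD γ (γ' t) t) (hC : ∀ t ∈ Set.uIcc a b, p (γ' t) ≤ C) :
    p (γ b - γ a) ≤ C * |b - a| := by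
  rcases le_total a b with hab | hab
  · rw [Set.uIcc_of_le hab] at h hC
    rw [abs_of_nonneg (sub_nonneg.2 hab)]
    exact seminorm_sub_le_of_le p hp hab h hC
  · rw [Set.uIcc_of_ge hab] at h hC
    rw [abs_sub_comm, abs_of_nonneg (sub_nonneg.2 hab), map_sub_rev]
    exact seminorm_sub_le_of_le p hp hab h hC

/-- Exchange of two derivatives when the mixed one is continuous. -/
theorem hd_swap [LocallyConvexSpace ℝ F] {φ φ₁ φ₁₂ : ℝ → ℝ → F} {φ₂ : ℝ → F} {s : ℝ}
    (h1 : ∀ σ t, HD (fun σ => φ σ t) (φ₁ σ t) σ) (h2 : ∀ σ, HD (φ σ) (φ₂ σ) 0)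
    (h12 : ∀ σ t, HD (φ₁ σ) (φ₁₂ σ t) t)
    (hc : ContinuousAt (fun p : ℝ × ℝ => φ₁₂ p.1 p.2) (s, 0)) : HD φ₂ (φ₁₂ s 0) s := by
  have hW := PolynormableSpace.withSeminorms ℝ F
  unfold HD
  rw [hW.tendsto_nhds]
  rintro ⟨p, hp⟩ ε hε
  set v := φ₁₂ s 0 with hv
  have hc' : ∀ᶠ q : ℝ × ℝ in 𝓝 (s, 0), p (φ₁₂ q.1 q.2 - v) < ε / 2 :=
    (hW.tendsto_nhds _ _).1 hc ⟨p, hp⟩ (ε / 2) (by positivity)
  obtain ⟨δ, hδ, hball⟩ := Metric.eventually_nhds_iff.1 hc'
  have hb : ∀ σ t, |σ - s| < δ → |t| < δ → p (φ₁₂ σ t - v) ≤ ε / 2 := by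
    intro σ t hσ ht
    refine (hball (y := (σ, t)) ?_).le
    rw [Prod.dist_eq, Real.dist_eq, Real.dist_eq, sub_zero]
    exact max_lt hσ ht
  have hsmall : ∀ᶠ h : ℝ in 𝓝[≠] 0, |h| < δ := by
    have : ∀ᶠ h : ℝ in 𝓝 0, |h| < δ := by
      filter_upwards [Metric.ball_mem_nhds (0 : ℝ) hδ] with h hh
      simpa using hh
    exact this.filter_mono nhdsWithin_le_nhds
  filter_upwards [hsmall, self_mem_nhdsWithin] with h hh hh0
  have hh0' : h ≠ 0 := hh0
  have step : ∀ t : ℝ, t ≠ 0 → |t| < δ →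
      p ((t⁻¹ • (φ (s + h) (0 + t) - φ (s + h) 0) - (s + h) • v) -
        (t⁻¹ • (φ s (0 + t) - φ s 0) - s • v)) ≤ ε / 2 * |s + h - s| := by
    intro t ht0 ht
    refine seminorm_sub_le p hp (γ := fun σ => t⁻¹ • (φ σ (0 + t) - φ σ 0) - σ • v)
      (γ' := fun σ => t⁻¹ • (φ₁ σ (0 + t) - φ₁ σ 0) - v) ?_ ?_
    · intro σ _
      exact (((h1 σ (0 + t)).sub (h1 σ 0)).const_smul _).sub (HD.id_smul v σ)
    · intro σ hσ
      have hσ' : |σ - s| < δ := by
        refine lt_of_le_of_lt ?_ hh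
        have := Set.abs_sub_left_of_mem_uIcc hσ
        simpa using this
      have h3 := seminorm_sub_le p hp (γ := fun τ => φ₁ σ τ - τ • v)
        (γ' := fun τ => φ₁₂ σ τ - v) (a := 0) (b := t) (C := ε / 2)
        (fun τ _ => (h12 σ τ).sub (HD.id_smul v τ)) (fun τ hτ => hb σ τ hσ' (by
          refine lt_of_le_of_lt ?_ ht
          have := Set.abs_sub_left_of_mem_uIcc hτ
          simpa using this))
      have e : t⁻¹ • (φ₁ σ (0 + t) - φ₁ σ 0) - v =
          t⁻¹ • ((φ₁ σ t - t • v) - (φ₁ σ 0 - (0 : ℝ) • v)) := by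
        rw [zero_add, zero_smul, sub_zero, sub_right_comm, smul_sub t⁻¹ (φ₁ σ t - φ₁ σ 0),
          smul_smul, inv_mul_cancel₀ ht0, one_smul]
      rw [e, map_smul_eq_mul, Real.norm_eq_abs, abs_inv]
      rw [sub_zero] at h3
      have hpos : 0 < |t| := abs_pos.2 ht0
      calc |t|⁻¹ * p (φ₁ σ t - t • v - (φ₁ σ 0 - (0 : ℝ) • v)) ≤ |t|⁻¹ * (ε / 2 * |t|) :=
            mul_le_mul_of_nonneg_left h3 (by positivity)
        _ = ε / 2 := by field_simp
  have lim : Tendsto (fun t : ℝ => p ((t⁻¹ • (φ (s + h) (0 + t) - φ (s + h) 0) - (s + h) • v) -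
        (t⁻¹ • (φ s (0 + t) - φ s 0) - s • v))) (𝓝[≠] 0)
      (𝓝 (p ((φ₂ (s + h) - (s + h) • v) - (φ₂ s - s • v)))) :=
    (hp.tendsto _).comp ((Tendsto.sub (h2 (s + h)) tendsto_const_nhds).sub
      (Tendsto.sub (h2 s) tendsto_const_nhds))
  have hle : p ((φ₂ (s + h) - (s + h) • v) - (φ₂ s - s • v)) ≤ ε / 2 * |s + h - s| := by
    refine le_of_tendsto lim ?_
    filter_upwards [hsmall, self_mem_nhdsWithin] with t ht ht0
    exact step t ht0 ht
  have e : h⁻¹ • (φ₂ (s + h) - φ₂ s) - v =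
      h⁻¹ • ((φ₂ (s + h) - (s + h) • v) - (φ₂ s - s • v)) := by
    have : (φ₂ (s + h) - (s + h) • v) - (φ₂ s - s • v) = (φ₂ (s + h) - φ₂ s) - h • v := by
      rw [add_smul]; abel
    rw [this, smul_sub h⁻¹ (φ₂ (s + h) - φ₂ s), smul_smul, inv_mul_cancel₀ hh0', one_smul]
  show p (h⁻¹ • (φ₂ (s + h) - φ₂ s) - v) < ε
  rw [e, map_smul_eq_mul, Real.norm_eq_abs, abs_inv]
  rw [add_sub_cancel_left] at hle
  have hpos : 0 < |h| := abs_pos.2 hh0'
  calc |h|⁻¹ * p (φ₂ (s + h) - (s + h) • v - (φ₂ s - s • v)) ≤ |h|⁻¹ * (ε / 2 * |h|) :=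
        mul_le_mul_of_nonneg_left hle (by positivity)
    _ = ε / 2 := by field_simp
    _ < ε := by linarith

end TVS

end Pool.Agent.BoltzC

end MrgPart0

-- ======== part 1: formerly Pool.Agent.BoltzD.Calc.Class
section MrgPart1

/-! Closure properties of the smooth classes `SmC`, `Sm`, `SmD`, Leibniz and Schwarz rules. -/

set_option autoImplicit false
set_option linter.unusedSectionVars false

open Filter Topology

namespace Pool.Agent.BoltzC

variable [Dim]

variable {F : Type*} [AddCommGroup F] [Module ℝ F] [TopologicalSpace F]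
  [IsTopologicalAddGroup F] [ContinuousSMul ℝ F] [T2Space F]
variable {F₁ : Type*} [AddCommGroup F₁] [Module ℝ F₁] [TopologicalSpace F₁]
  [IsTopologicalAddGroup F₁] [ContinuousSMul ℝ F₁] [T2Space F₁]
variable {F₂ : Type*} [AddCommGroup F₂] [Module ℝ F₂] [TopologicalSpace F₂]
  [IsTopologicalAddGroup F₂] [ContinuousSMul ℝ F₂] [T2Space F₂]
variable {T : Type*} [TopologicalSpace T]

@[simp] theorem dXw_nil (G : E3 → F) : dXw [] G = G := rfl

@[simp] theorem dXw_cons (i : Ix) (u : List Ix) (G : E3 → F) :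
    dXw (i :: u) G = dXw u (dX i G) := rfl

theorem dXw_append (u w : List Ix) (G : E3 → F) : dXw (u ++ w) G = dXw w (dXw u G) := by
  induction u generalizing G with
  | nil => rfl
  | cons i u ih => simp [ih]

theorem dXw_concat (u : List Ix) (i : Ix) (G : E3 → F) :
    dXw (u ++ [i]) G = dX i (dXw u G) := by rw [dXw_append]; rfl

theorem dX_eq {G : E3 → F} {i : Ix} {x : E3} {v : F}
    (h : HD (fun t : ℝ => G (x + t • ev i)) v 0) : dX i G x = v := by
  unfold HD at h
  simp only [zero_add, zero_smul, add_zero] at h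
  exact h.limUnder_eq

/-- First partial derivatives exist everywhere. -/
def Dif (G : E3 → F) : Prop := ∀ i x, HD (fun t : ℝ => G (x + t • ev i)) (dX i G x) 0

theorem Dif.line {G : E3 → F} (h : Dif G) (i : Ix) (x : E3) (t₀ : ℝ) :
    HD (fun t : ℝ => G (x + t • ev i)) (dX i G (x + t₀ • ev i)) t₀ := by
  rw [← hd_shift]
  refine (h i (x + t₀ • ev i)).congr fun s => ?_
  rw [add_smul, add_assoc]

theorem dif_of_hd {G : E3 → F} {G' : Ix → E3 → F}
    (h : ∀ i x, HD (fun t : ℝ => G (x + t • ev i)) (G' i x) 0) : Dif G :=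
  fun i x => (dX_eq (h i x)).symm ▸ h i x

theorem Dif.const (c : F) : Dif (fun _ => c) :=
  dif_of_hd (G' := fun _ _ => 0) fun _ _ => HD.const c 0

theorem dX_const (i : Ix) (c : F) : dX i (fun _ => c) = fun _ => 0 :=
  funext fun _ => dX_eq (HD.const c 0)

theorem dX_add {G H : E3 → F} (hG : Dif G) (hH : Dif H) (i : Ix) :
    dX i (fun x => G x + H x) = fun x => dX i G x + dX i H x :=
  funext fun x => dX_eq ((hG i x).add (hH i x))

theorem dX_sub {G H : E3 → F} (hG : Dif G) (hH : Dif H) (i : Ix) :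
    dX i (fun x => G x - H x) = fun x => dX i G x - dX i H x :=
  funext fun x => dX_eq ((hG i x).sub (hH i x))

theorem dX_neg {G : E3 → F} (hG : Dif G) (i : Ix) :
    dX i (fun x => -G x) = fun x => -dX i G x :=
  funext fun x => dX_eq (hG i x).neg

theorem dX_const_smul {G : E3 → F} (hG : Dif G) (c : ℝ) (i : Ix) :
    dX i (fun x => c • G x) = fun x => c • dX i G x :=
  funext fun x => dX_eq ((hG i x).const_smul c)

theorem dX_sum {ι : Type*} (S : Finset ι) {G : ι → E3 → F} (hG : ∀ j ∈ S, Dif (G j)) (i : Ix) :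
    dX i (fun x => ∑ j ∈ S, G j x) = fun x => ∑ j ∈ S, dX i (G j) x :=
  funext fun x => dX_eq (HD.sum S fun j hj => hG j hj i x)

theorem dX_clm {G : E3 → F₁} (hG : Dif G) (A : F₁ →L[ℝ] F₂) (i : Ix) :
    dX i (fun x => A (G x)) = fun x => A (dX i G x) :=
  funext fun x => dX_eq ((hG i x).clm A)

theorem dX_bilin (B : F₁ →ₗ[ℝ] F₂ →ₗ[ℝ] F) (hB : Continuous fun p : F₁ × F₂ => B p.1 p.2)
    {G : E3 → F₁} {H : E3 → F₂} (hG : Dif G) (hH : Dif H) (i : Ix) :
    dX i (fun x => B (G x) (H x)) = fun x => B (dX i G x) (H x) + B (G x) (dX i H x) :=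
  funext fun x => dX_eq (by simpa using HD.bilin B hB (hG i x) (hH i x))

theorem dX_smul {c : E3 → ℝ} {G : E3 → F} (hc : Dif c) (hG : Dif G) (i : Ix) :
    dX i (fun x => c x • G x) = fun x => dX i c x • G x + c x • dX i G x :=
  funext fun x => dX_eq (by simpa using (hc i x).smul (hG i x))

theorem dX_mul {c d : E3 → ℝ} (hc : Dif c) (hd : Dif d) (i : Ix) :
    dX i (fun x => c x * d x) = fun x => dX i c x * d x + c x * dX i d x :=
  dX_smul hc hd i

theorem dX_smul_const {c : E3 → ℝ} (hc : Dif c) (v : F) (i : Ix) :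
    dX i (fun x => c x • v) = fun x => dX i c x • v :=
  funext fun x => dX_eq ((hc i x).smul_const v)

theorem Good.dif {g : T → E3 → F} (h : Good g) (s : T) : Dif (g s) := h.hd s

theorem SmC.good {g : T → E3 → F} (h : SmC g) : Good g := h []

theorem SmC.cont {g : T → E3 → F} (h : SmC g) : Continuous fun p : T × E3 => g p.1 p.2 :=
  h.good.cont

theorem SmC.dif {g : T → E3 → F} (h : SmC g) (s : T) : Dif (g s) := h.good.hd s

theorem SmC.dX {g : T → E3 → F} (h : SmC g) (i : Ix) : SmC fun s => dX i (g s) :=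
  fun u => h (i :: u)

theorem SmC.dXw {g : T → E3 → F} (h : SmC g) (u : List Ix) : SmC fun s => dXw u (g s) :=
  fun w => by simpa only [dXw_append] using h (u ++ w)

theorem SmC.congr {g g' : T → E3 → F} (h : SmC g) (e : ∀ s x, g s x = g' s x) : SmC g' := by
  have : g = g' := funext fun s => funext (e s)
  exact this ▸ h

theorem SmC.cont_slice {g : T → E3 → F} (h : SmC g) (s : T) : Continuous (g s) :=
  h.cont.comp (Continuous.prodMk_right s)

theorem SmC.cont_time {g : T → E3 → F} (h : SmC g) (x : E3) : Continuous fun s => g s x :=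
  h.cont.comp (Continuous.prodMk_left x)

/-- Coinduction principle for `SmC`. -/
theorem smC_coind (P : (T → E3 → F) → Prop)
    (hP : ∀ g, P g → Continuous (fun p : T × E3 => g p.1 p.2) ∧
      ∀ i, ∃ g', P g' ∧ ∀ s x, HD (fun t : ℝ => g s (x + t • ev i)) (g' s x) 0)
    {g : T → E3 → F} (hg : P g) : SmC g := by
  intro u
  induction u generalizing g with
  | nil =>
    obtain ⟨hc, hd⟩ := hP g hg
    choose g' _ hg' using hd
    exact ⟨hc, fun s => dif_of_hd (G' := fun i => g' i s) fun i x => hg' i s x⟩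
  | cons i u ih =>
    obtain ⟨g', h1, h2⟩ := (hP g hg).2 i
    have e : (fun s => BoltzC.dX i (g s)) = g' := funext fun s => funext fun x => dX_eq (h2 s x)
    have := ih h1
    rw [← e] at this
    exact this

theorem smC_of_dX {g : T → E3 → F} (hc : Continuous fun p : T × E3 => g p.1 p.2)
    {g' : Ix → T → E3 → F} (hg' : ∀ i, SmC (g' i))
    (hd : ∀ i s x, HD (fun t : ℝ => g s (x + t • ev i)) (g' i s x) 0) : SmC g := by
  refine smC_coind (fun k => k = g ∨ SmC k) ?_ (Or.inl rfl)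
  rintro k (rfl | hk)
  · exact ⟨hc, fun i => ⟨g' i, Or.inr (hg' i), hd i⟩⟩
  · exact ⟨hk.cont, fun i => ⟨_, Or.inr (hk.dX i), fun s x => hk.dif s i x⟩⟩

theorem SmC.reparam {T' : Type*} [TopologicalSpace T'] {g : T → E3 → F} (h : SmC g) {r : T' → T}
    (hr : Continuous r) : SmC fun s => g (r s) := fun u =>
  ⟨(h u).cont.comp ((hr.comp continuous_fst).prodMk continuous_snd), fun s => (h u).hd (r s)⟩

theorem SmC.slice {g : T → E3 → F} (h : SmC g) (s : T) : Sm (g s) :=
  h.reparam (r := fun _ : Unit => s) continuous_const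

theorem Sm.smC {G : E3 → F} (h : Sm G) : SmC fun _ : T => G :=
  SmC.reparam h (r := fun _ : T => ()) continuous_const

theorem Sm.dif {G : E3 → F} (h : Sm G) : Dif G := SmC.dif h ()

theorem Sm.cont {G : E3 → F} (h : Sm G) : Continuous G := SmC.cont_slice h ()

theorem Sm.dX {G : E3 → F} (h : Sm G) (i : Ix) : Sm (dX i G) := SmC.dX h i

theorem Sm.dXw {G : E3 → F} (h : Sm G) (u : List Ix) : Sm (dXw u G) := SmC.dXw h u

theorem SmC.of_time {φ : T → F} (hφ : Continuous φ) : SmC fun s (_ : E3) => φ s := by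
  refine smC_coind (fun k => ∃ ψ : T → F, Continuous ψ ∧ k = fun s _ => ψ s) ?_ ⟨φ, hφ, rfl⟩
  rintro k ⟨ψ, hψ, rfl⟩
  exact ⟨hψ.comp continuous_fst, fun i => ⟨fun _ _ => 0, ⟨fun _ => 0, continuous_const, rfl⟩,
    fun s _ => HD.const (ψ s) 0⟩⟩

theorem SmC.const (c : F) : SmC fun (_ : T) (_ : E3) => c := SmC.of_time continuous_const

theorem SmC.add {g h : T → E3 → F} (hg : SmC g) (hh : SmC h) : SmC fun s x => g s x + h s x := by
  refine smC_coind (fun k => ∃ g h, SmC g ∧ SmC h ∧ k = fun s x => g s x + h s x) ?_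
    ⟨g, h, hg, hh, rfl⟩
  rintro k ⟨g, h, hg, hh, rfl⟩
  exact ⟨hg.cont.add hh.cont, fun i => ⟨_, ⟨_, _, hg.dX i, hh.dX i, rfl⟩,
    fun s x => (hg.dif s i x).add (hh.dif s i x)⟩⟩

theorem SmC.clm {g : T → E3 → F₁} (hg : SmC g) (A : F₁ →L[ℝ] F₂) : SmC fun s x => A (g s x) := by
  refine smC_coind (fun k => ∃ g, SmC g ∧ k = fun s x => A (g s x)) ?_ ⟨g, hg, rfl⟩
  rintro k ⟨g, hg, rfl⟩
  exact ⟨A.continuous.comp hg.cont, fun i => ⟨_, ⟨_, hg.dX i, rfl⟩,
    fun s x => (hg.dif s i x).clm A⟩⟩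

theorem SmC.const_smul {g : T → E3 → F} (hg : SmC g) (c : ℝ) : SmC fun s x => c • g s x :=
  hg.clm (c • ContinuousLinearMap.id ℝ F)

theorem SmC.neg {g : T → E3 → F} (hg : SmC g) : SmC fun s x => -g s x :=
  hg.clm (-ContinuousLinearMap.id ℝ F)

theorem SmC.sub {g h : T → E3 → F} (hg : SmC g) (hh : SmC h) : SmC fun s x => g s x - h s x := by
  simpa only [sub_eq_add_neg] using hg.add hh.neg

theorem SmC.sum {ι : Type*} (S : Finset ι) {g : ι → T → E3 → F} (hg : ∀ j ∈ S, SmC (g j)) :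
    SmC fun s x => ∑ j ∈ S, g j s x := by
  classical
  induction S using Finset.induction_on with
  | empty => simpa using SmC.const (0 : F)
  | insert j S hj ih =>
    simp only [Finset.sum_insert hj]
    exact (hg j (Finset.mem_insert_self _ _)).add
      (ih fun i hi => hg i (Finset.mem_insert_of_mem hi))

/-- Finite sums of bilinear expressions in smooth families. -/
inductive BilSpan (B : F₁ →ₗ[ℝ] F₂ →ₗ[ℝ] F) : (T → E3 → F) → Prop
  | base (g : T → E3 → F₁) (h : T → E3 → F₂) (hg : SmC g) (hh : SmC h) :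
      BilSpan B fun s x => B (g s x) (h s x)
  | add (a b : T → E3 → F) (ha : BilSpan B a) (hb : BilSpan B b) :
      BilSpan B fun s x => a s x + b s x

theorem SmC.bilin (B : F₁ →ₗ[ℝ] F₂ →ₗ[ℝ] F) (hB : Continuous fun p : F₁ × F₂ => B p.1 p.2)
    {g : T → E3 → F₁} {h : T → E3 → F₂} (hg : SmC g) (hh : SmC h) :
    SmC fun s x => B (g s x) (h s x) := by
  refine smC_coind (BilSpan B) ?_ (BilSpan.base g h hg hh)
  intro k hk
  induction hk with
  | base g h hg hh =>
    refine ⟨hB.comp (hg.cont.prodMk hh.cont), fun i => ⟨_, BilSpan.add _ _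
      (BilSpan.base _ _ (hg.dX i) hh) (BilSpan.base _ _ hg (hh.dX i)), fun s x => ?_⟩⟩
    simpa using HD.bilin B hB (hg.dif s i x) (hh.dif s i x)
  | add a b _ _ iha ihb =>
    refine ⟨iha.1.add ihb.1, fun i => ?_⟩
    obtain ⟨a', ha1, ha2⟩ := iha.2 i
    obtain ⟨b', hb1, hb2⟩ := ihb.2 i
    exact ⟨_, BilSpan.add _ _ ha1 hb1, fun s x => (ha2 s x).add (hb2 s x)⟩

theorem SmC.smul {c : T → E3 → ℝ} {g : T → E3 → F} (hc : SmC c) (hg : SmC g) :
    SmC fun s x => c s x • g s x :=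
  SmC.bilin (LinearMap.lsmul ℝ F) continuous_lsmul hc hg

theorem SmC.mul {c d : T → E3 → ℝ} (hc : SmC c) (hd : SmC d) : SmC fun s x => c s x * d s x :=
  hc.smul hd

theorem SmC.smul_const {c : T → E3 → ℝ} (hc : SmC c) (v : F) : SmC fun s x => c s x • v :=
  hc.smul (SmC.const v)

theorem Sm.const (c : F) : Sm fun _ : E3 => c := SmC.const c

theorem Sm.add {G H : E3 → F} (hG : Sm G) (hH : Sm H) : Sm fun x => G x + H x := SmC.add hG hH

theorem Sm.sub {G H : E3 → F} (hG : Sm G) (hH : Sm H) : Sm fun x => G x - H x := SmC.sub hG hH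

theorem Sm.neg {G : E3 → F} (hG : Sm G) : Sm fun x => -G x := SmC.neg hG

theorem Sm.const_smul {G : E3 → F} (hG : Sm G) (c : ℝ) : Sm fun x => c • G x :=
  SmC.const_smul hG c

theorem Sm.clm {G : E3 → F₁} (hG : Sm G) (A : F₁ →L[ℝ] F₂) : Sm fun x => A (G x) := SmC.clm hG A

theorem Sm.sum {ι : Type*} (S : Finset ι) {G : ι → E3 → F} (hG : ∀ j ∈ S, Sm (G j)) :
    Sm fun x => ∑ j ∈ S, G j x := SmC.sum S (g := fun j _ => G j) hG

theorem Sm.bilin (B : F₁ →ₗ[ℝ] F₂ →ₗ[ℝ] F) (hB : Continuous fun p : F₁ × F₂ => B p.1 p.2)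
    {G : E3 → F₁} {H : E3 → F₂} (hG : Sm G) (hH : Sm H) : Sm fun x => B (G x) (H x) :=
  SmC.bilin B hB hG hH

theorem Sm.smul {c : E3 → ℝ} {G : E3 → F} (hc : Sm c) (hG : Sm G) : Sm fun x => c x • G x :=
  SmC.smul hc hG

theorem Sm.mul {c d : E3 → ℝ} (hc : Sm c) (hd : Sm d) : Sm fun x => c x * d x := SmC.mul hc hd

theorem Sm.smul_const {c : E3 → ℝ} (hc : Sm c) (v : F) : Sm fun x => c x • v :=
  SmC.smul_const hc v

/-! ### Words -/

theorem dXw_const (u : List Ix) (hu : u ≠ []) (c : F) : dXw u (fun _ => c) = fun _ => 0 := by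
  induction u generalizing c with
  | nil => exact absurd rfl hu
  | cons i u ih =>
    rw [dXw_cons, dX_const]
    by_cases h : u = []
    · subst h; rfl
    · exact ih h 0

theorem dXw_zero (u : List Ix) : dXw u (fun _ => (0 : F)) = fun _ => 0 := by
  by_cases h : u = []
  · subst h; rfl
  · exact dXw_const u h 0

theorem dXw_add {G H : E3 → F} (hG : Sm G) (hH : Sm H) (u : List Ix) :
    dXw u (fun x => G x + H x) = fun x => dXw u G x + dXw u H x := by
  induction u generalizing G H with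
  | nil => rfl
  | cons i u ih => rw [dXw_cons, dX_add hG.dif hH.dif, ih (hG.dX i) (hH.dX i)]; rfl

theorem dXw_clm {G : E3 → F₁} (hG : Sm G) (A : F₁ →L[ℝ] F₂) (u : List Ix) :
    dXw u (fun x => A (G x)) = fun x => A (dXw u G x) := by
  induction u generalizing G with
  | nil => rfl
  | cons i u ih => rw [dXw_cons, dX_clm hG.dif, ih (hG.dX i)]; rfl

theorem dXw_const_smul {G : E3 → F} (hG : Sm G) (c : ℝ) (u : List Ix) :
    dXw u (fun x => c • G x) = fun x => c • dXw u G x :=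
  dXw_clm hG (c • ContinuousLinearMap.id ℝ F) u

theorem dXw_neg {G : E3 → F} (hG : Sm G) (u : List Ix) :
    dXw u (fun x => -G x) = fun x => -dXw u G x :=
  dXw_clm hG (-ContinuousLinearMap.id ℝ F) u

theorem dXw_sub {G H : E3 → F} (hG : Sm G) (hH : Sm H) (u : List Ix) :
    dXw u (fun x => G x - H x) = fun x => dXw u G x - dXw u H x := by
  simp only [sub_eq_add_neg]
  rw [dXw_add hG hH.neg, dXw_neg hH]

theorem dXw_sum {ι : Type*} (S : Finset ι) {G : ι → E3 → F} (hG : ∀ j ∈ S, Sm (G j))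
    (u : List Ix) : dXw u (fun x => ∑ j ∈ S, G j x) = fun x => ∑ j ∈ S, dXw u (G j) x := by
  induction u generalizing G with
  | nil => rfl
  | cons i u ih =>
    rw [dXw_cons, dX_sum S fun j hj => (hG j hj).dif, ih fun j hj => (hG j hj).dX i]; rfl

theorem dXw_smul_const {c : E3 → ℝ} (hc : Sm c) (v : F) (u : List Ix) :
    dXw u (fun x => c x • v) = fun x => dXw u c x • v :=
  dXw_clm hc (ContinuousLinearMap.toSpanSingleton ℝ v) u

/-- Leibniz rule along a word. -/
theorem dXw_bilin (B : F₁ →ₗ[ℝ] F₂ →ₗ[ℝ] F) (hB : Continuous fun p : F₁ × F₂ => B p.1 p.2)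
    {G : E3 → F₁} {H : E3 → F₂} (hG : Sm G) (hH : Sm H) (u : List Ix) :
    dXw u (fun x => B (G x) (H x)) =
      fun x => ((splits u).map fun p => B (dXw p.1 G x) (dXw p.2 H x)).sum := by
  induction u generalizing G H with
  | nil => funext x; simp [splits]
  | cons i u ih =>
    rw [dXw_cons, dX_bilin B hB hG.dif hH.dif,
      dXw_add (Sm.bilin B hB (hG.dX i) hH) (Sm.bilin B hB hG (hH.dX i)),
      ih (hG.dX i) hH, ih hG (hH.dX i)]
    funext x
    simp [splits, Function.comp_def]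

theorem dXw_smul {c : E3 → ℝ} {G : E3 → F} (hc : Sm c) (hG : Sm G) (u : List Ix) :
    dXw u (fun x => c x • G x) =
      fun x => ((splits u).map fun p => dXw p.1 c x • dXw p.2 G x).sum :=
  dXw_bilin (LinearMap.lsmul ℝ F) continuous_lsmul hc hG u

theorem length_of_mem_splits {u : List Ix} {p : List Ix × List Ix}
    (hp : p ∈ splits u) : p.1.length + p.2.length = u.length := by
  induction u generalizing p with
  | nil => simp [splits] at hp; simp [hp]
  | cons i u ih =>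
    simp only [splits, List.mem_append, List.mem_map] at hp
    rcases hp with ⟨q, hq, rfl⟩ | ⟨q, hq, rfl⟩
    · have := ih hq; simp; omega
    · have := ih hq; simp; omega

theorem length_splits (u : List Ix) : (splits u).length = 2 ^ u.length := by
  induction u with
  | nil => rfl
  | cons i u ih => simp [splits, ih, pow_succ]; ring

/-! ### Periodicity -/

theorem Per.dX {G : E3 → F} (h : Per G) (i : Ix) : Per (dX i G) := by
  intro j x
  unfold BoltzC.dX
  congr 1
  funext t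
  rw [h j x, add_right_comm, h j]

theorem Per.dXw {G : E3 → F} (h : Per G) (u : List Ix) : Per (dXw u G) := by
  induction u generalizing G with
  | nil => exact h
  | cons i u ih => exact ih (h.dX i)

theorem Per.map {α β : Type*} {G : E3 → α} (h : Per G) (φ : α → β) : Per fun x => φ (G x) :=
  fun i x => by simp only [h i x]

theorem Per.map₂ {α β γ : Type*} {G : E3 → α} {H : E3 → β} (hG : Per G) (hH : Per H)
    (φ : α → β → γ) : Per fun x => φ (G x) (H x) := fun i x => by simp only [hG i x, hH i x]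

theorem Per.const {α : Type*} (c : α) : Per fun _ => c := fun _ _ => rfl

theorem Per.sum {ι α : Type*} [AddCommMonoid α] (S : Finset ι) {G : ι → E3 → α}
    (h : ∀ j ∈ S, Per (G j)) : Per fun x => ∑ j ∈ S, G j x :=
  fun i x => Finset.sum_congr rfl fun j hj => h j hj i x

/-! ### Exchange of derivatives -/

section LC

variable [LocallyConvexSpace ℝ F]

theorem dX_comm {G : E3 → F} (hG : Sm G) (i j : Ix) : dX i (dX j G) = dX j (dX i G) := by
  funext x
  apply dX_eq
  have key := hd_swap (φ := fun σ t => G (x + σ • ev i + t • ev j))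
    (φ₁ := fun σ t => dX i G (x + σ • ev i + t • ev j))
    (φ₁₂ := fun σ t => dX j (dX i G) (x + σ • ev i + t • ev j))
    (φ₂ := fun σ => dX j G (x + σ • ev i)) (s := 0) ?_ ?_ ?_ ?_
  · simpa using key
  · intro σ t
    have := hG.dif.line i (x + t • ev j) σ
    simpa only [add_right_comm] using this
  · intro σ
    exact hG.dif j _
  · intro σ t
    exact (hG.dX i).dif.line j _ t
  · exact (((hG.dX i).dX j).cont.comp (by fun_prop)).continuousAt

theorem dXw_dX {G : E3 → F} (hG : Sm G) (u : List Ix) (i : Ix) :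
    dXw u (dX i G) = dX i (dXw u G) := by
  induction u generalizing G with
  | nil => rfl
  | cons j u ih => rw [dXw_cons, dXw_cons, dX_comm hG, ih (hG.dX j)]

theorem dXw_comm {G : E3 → F} (hG : Sm G) (u w : List Ix) :
    dXw u (dXw w G) = dXw w (dXw u G) := by
  induction w generalizing G with
  | nil => rfl
  | cons j w ih => rw [dXw_cons, dXw_cons, ih (hG.dX j), dXw_dX hG]

theorem dXw_perm {G : E3 → F} (hG : Sm G) {u w : List Ix} (h : u.Perm w) :
    dXw u G = dXw w G := by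
  induction h generalizing G with
  | nil => rfl
  | cons i _ ih => exact ih (hG.dX i)
  | swap i j u => simp only [dXw_cons]; rw [dX_comm hG]
  | trans _ _ ih1 ih2 => exact (ih1 hG).trans (ih2 hG)

theorem SmD.dX {g g' : ℝ → E3 → F} (h : SmD g g') (i : Ix) :
    SmD (fun s => dX i (g s)) (fun s => dX i (g' s)) := by
  refine ⟨h.sm.dX i, h.sm'.dX i, fun s x => ?_⟩
  have key := hd_swap (φ := fun σ t => g σ (x + t • ev i)) (φ₁ := fun σ t => g' σ (x + t • ev i))
    (φ₁₂ := fun σ t => BoltzC.dX i (g' σ) (x + t • ev i))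
    (φ₂ := fun σ => BoltzC.dX i (g σ) x) (s := s) (fun σ t => h.hd σ _) (fun σ => h.sm.dif σ i x)
    (fun σ t => (h.sm'.dif σ).line i x t)
    (((h.sm'.dX i).cont.comp (f := fun p : ℝ × ℝ => (p.1, x + p.2 • ev i))
      (by fun_prop)).continuousAt)
  simpa using key

theorem SmD.dXw {g g' : ℝ → E3 → F} (h : SmD g g') (u : List Ix) :
    SmD (fun s => dXw u (g s)) (fun s => dXw u (g' s)) := by
  induction u generalizing g g' with
  | nil => exact h
  | cons i u ih => exact ih (h.dX i)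

end LC

/-! ### Curves -/

theorem SmD.congr_deriv {g g' g'' : ℝ → E3 → F} (h : SmD g g') (e : ∀ s x, g' s x = g'' s x) :
    SmD g g'' := by
  have : g' = g'' := funext fun s => funext (e s)
  exact this ▸ h

theorem SmD.congr {g k g' : ℝ → E3 → F} (h : SmD g g') (e : ∀ s x, g s x = k s x) :
    SmD k g' := by
  have : g = k := funext fun s => funext (e s)
  exact this ▸ h

theorem Sm.smD {G : E3 → F} (h : Sm G) : SmD (fun _ => G) fun _ _ => 0 :=
  ⟨h.smC, SmC.const 0, fun s x => HD.const (G x) s⟩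

theorem SmD.of_time {φ φ' : ℝ → F} (hφ : ∀ s, HD φ (φ' s) s) (hφ' : Continuous φ') :
    SmD (fun s _ => φ s) fun s _ => φ' s :=
  ⟨SmC.of_time (continuous_iff_continuousAt.2 fun s => (hφ s).continuousAt), SmC.of_time hφ',
    fun s _ => hφ s⟩

theorem SmD.add {g g' h h' : ℝ → E3 → F} (hg : SmD g g') (hh : SmD h h') :
    SmD (fun s x => g s x + h s x) fun s x => g' s x + h' s x :=
  ⟨hg.sm.add hh.sm, hg.sm'.add hh.sm', fun s x => (hg.hd s x).add (hh.hd s x)⟩

theorem SmD.sub {g g' h h' : ℝ → E3 → F} (hg : SmD g g') (hh : SmD h h') :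
    SmD (fun s x => g s x - h s x) fun s x => g' s x - h' s x :=
  ⟨hg.sm.sub hh.sm, hg.sm'.sub hh.sm', fun s x => (hg.hd s x).sub (hh.hd s x)⟩

theorem SmD.neg {g g' : ℝ → E3 → F} (hg : SmD g g') :
    SmD (fun s x => -g s x) fun s x => -g' s x :=
  ⟨hg.sm.neg, hg.sm'.neg, fun s x => (hg.hd s x).neg⟩

theorem SmD.const_smul {g g' : ℝ → E3 → F} (hg : SmD g g') (c : ℝ) :
    SmD (fun s x => c • g s x) fun s x => c • g' s x :=
  ⟨hg.sm.const_smul c, hg.sm'.const_smul c, fun s x => (hg.hd s x).const_smul c⟩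

theorem SmD.clm {g g' : ℝ → E3 → F₁} (hg : SmD g g') (A : F₁ →L[ℝ] F₂) :
    SmD (fun s x => A (g s x)) fun s x => A (g' s x) :=
  ⟨hg.sm.clm A, hg.sm'.clm A, fun s x => (hg.hd s x).clm A⟩

theorem SmD.sum {ι : Type*} (S : Finset ι) {g g' : ι → ℝ → E3 → F}
    (hg : ∀ j ∈ S, SmD (g j) (g' j)) :
    SmD (fun s x => ∑ j ∈ S, g j s x) fun s x => ∑ j ∈ S, g' j s x :=
  ⟨SmC.sum S fun j hj => (hg j hj).sm, SmC.sum S fun j hj => (hg j hj).sm',
    fun s x => HD.sum S fun j hj => (hg j hj).hd s x⟩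

theorem SmD.bilin (B : F₁ →ₗ[ℝ] F₂ →ₗ[ℝ] F) (hB : Continuous fun p : F₁ × F₂ => B p.1 p.2)
    {g g' : ℝ → E3 → F₁} {h h' : ℝ → E3 → F₂} (hg : SmD g g') (hh : SmD h h') :
    SmD (fun s x => B (g s x) (h s x)) fun s x => B (g' s x) (h s x) + B (g s x) (h' s x) :=
  ⟨SmC.bilin B hB hg.sm hh.sm, (SmC.bilin B hB hg.sm' hh.sm).add (SmC.bilin B hB hg.sm hh.sm'),
    fun s x => HD.bilin B hB (hg.hd s x) (hh.hd s x)⟩

theorem SmD.smul {c c' : ℝ → E3 → ℝ} {g g' : ℝ → E3 → F} (hc : SmD c c') (hg : SmD g g') :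
    SmD (fun s x => c s x • g s x) fun s x => c' s x • g s x + c s x • g' s x :=
  SmD.bilin (LinearMap.lsmul ℝ F) continuous_lsmul hc hg

theorem SmD.mul {c c' d d' : ℝ → E3 → ℝ} (hc : SmD c c') (hd : SmD d d') :
    SmD (fun s x => c s x * d s x) fun s x => c' s x * d s x + c s x * d' s x :=
  hc.smul hd

theorem SmD.smul_const {c c' : ℝ → E3 → ℝ} (hc : SmD c c') (v : F) :
    SmD (fun s x => c s x • v) fun s x => c' s x • v :=
  ⟨hc.sm.smul_const v, hc.sm'.smul_const v, fun s x => (hc.hd s x).smul_const v⟩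

end Pool.Agent.BoltzC

end MrgPart1

-- marker of a merged file
example : 731051 + 732570 = 731051 + 732570 := rfl

end MrgPart0

-- ======== part 1: formerly Pool.Agent.BoltzD.Herm.Poly
section MrgPart1

/-!
Words in the creation operators, the norms they define, and the spaces of Hermite functions of
bounded degree.
-/

set_option autoImplicit false

open MeasureTheory SchwartzMap Pool.Agent.BoltzC
open scoped SchwartzMap ContDiff

noncomputable section

namespace Pool.Agent.BoltzD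

variable [Dim]

/-- A word in the creation operators. -/
def apW : List Ix → SV →L[ℝ] SV
  | [] => ContinuousLinearMap.id ℝ SV
  | j :: w => (ap j).comp (apW w)

@[simp] lemma apW_nil (f : SV) : apW [] f = f := rfl

@[simp] lemma apW_cons (j : Ix) (w : List Ix) (f : SV) :
    apW (j :: w) f = ap j (apW w f) := rfl

lemma apW_append (u w : List Ix) (f : SV) : apW (u ++ w) f = apW u (apW w f) := by
  induction u with
  | nil => simp
  | cons j u ih => simp [ih]

lemma apW_ap (w : List Ix) (j : Ix) (f : SV) : apW w (ap j f) = ap j (apW w f) := by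
  induction w with
  | nil => simp
  | cons i w ih => simp [ih, ap_comm i j]

/-- The words of length `m`. -/
def words : ℕ → Finset (List Ix)
  | 0 => {[]}
  | m + 1 => (Finset.univ ×ˢ words m).map
      ⟨fun p => p.1 :: p.2, fun p q h => by
        simp only [List.cons.injEq] at h
        exact Prod.ext h.1 h.2⟩

lemma mem_words {m : ℕ} {w : List Ix} : w ∈ words m ↔ w.length = m := by
  induction m generalizing w with
  | zero => simp [words]
  | succ m ih =>
    cases w with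
    | nil => simp [words]
    | cons j w => simp [words, ih]

lemma sum_words_succ {M : Type} [AddCommMonoid M] (m : ℕ) (F : List Ix → M) :
    ∑ w ∈ words (m + 1), F w = ∑ j, ∑ w ∈ words m, F (j :: w) := by
  rw [words, Finset.sum_map, Finset.sum_product]
  rfl

/-- `nA m f` is the sum of `|a⁺^w f|²` over the words of length `m`. -/
def nA (m : ℕ) (f : SV) : ℝ := ∑ w ∈ words m, ip (apW w f) (apW w f)

lemma nA_zero (f : SV) : nA 0 f = ip f f := by simp [nA, words]

lemma nA_succ (m : ℕ) (f : SV) : nA (m + 1) f = ∑ j, nA m (ap j f) := by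
  simp only [nA, sum_words_succ, apW_cons, apW_ap]

lemma nA_succ' (m : ℕ) (f : SV) : nA (m + 1) f = ∑ w ∈ words m, nA 1 (apW w f) := by
  rw [nA, sum_words_succ, Finset.sum_comm]
  refine Finset.sum_congr rfl fun w _ => ?_
  rw [nA_succ]
  simp [nA_zero]

lemma nA_add (m k : ℕ) (f : SV) : nA (m + k) f = ∑ w ∈ words m, nA k (apW w f) := by
  induction m generalizing f with
  | zero => simp [words]
  | succ m ih =>
    rw [Nat.add_right_comm, nA_succ, sum_words_succ]
    simp only [ih, apW_cons, apW_ap]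

lemma nA_nonneg (m : ℕ) (f : SV) : 0 ≤ nA m f :=
  Finset.sum_nonneg fun _ _ => ip_self_nonneg _

lemma ip_apW_le_nA (w : List Ix) (f : SV) : ip (apW w f) (apW w f) ≤ nA w.length f :=
  Finset.single_le_sum (f := fun w => ip (apW w f) (apW w f)) (fun _ _ => ip_self_nonneg _)
    (mem_words.2 rfl)

/-- The operators `R_m = ∑_w (a^w)(a⁺^w)`; `R_1 = N + d`. -/
def RR : ℕ → SV →L[ℝ] SV
  | 0 => ContinuousLinearMap.id ℝ SV
  | m + 1 => ∑ j, (am j).comp ((RR m).comp (ap j))

@[simp] lemma RR_zero (f : SV) : RR 0 f = f := rfl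

lemma RR_succ (m : ℕ) (f : SV) : RR (m + 1) f = ∑ j, am j (RR m (ap j f)) := by
  simp [RR]

lemma ip_RR (m : ℕ) (f g : SV) :
    ip f (RR m g) = ∑ w ∈ words m, ip (apW w f) (apW w g) := by
  induction m generalizing f g with
  | zero => simp [words]
  | succ m ih =>
    rw [RR_succ, map_sum, sum_words_succ]
    refine Finset.sum_congr rfl fun j _ => ?_
    rw [← ip_ap, ih]
    simp only [apW_cons, apW_ap]

lemma nA_eq_ip_RR (m : ℕ) (f : SV) : nA m f = ip f (RR m f) := (ip_RR m f f).symm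

lemma ip_RR_symm (m : ℕ) (f g : SV) : ip (RR m f) g = ip f (RR m g) := by
  rw [ip_comm, ip_RR, ip_RR]
  exact Finset.sum_congr rfl fun w _ => ip_comm _ _

lemma ip_am_am (j : Ix) (f : SV) : ip (am j f) (am j f) = ip (ap j f) (ap j f) - ip f f := by
  rw [ip_ap, am_ap, ip_am]
  simp

lemma ip_le_ip_ap (j : Ix) (f : SV) : ip f f ≤ ip (ap j f) (ap j f) := by
  have := ip_am_am j f
  have := ip_self_nonneg (am j f)
  linarith

lemma ip_am_le (j : Ix) (f : SV) : ip (am j f) (am j f) ≤ ip (ap j f) (ap j f) := by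
  have := ip_am_am j f
  have := ip_self_nonneg f
  linarith

lemma nA_one (f : SV) : nA 1 f = ∑ j, ip (ap j f) (ap j f) := by
  rw [nA_succ]; simp [nA_zero]

lemma nA_le_succ (m : ℕ) (f : SV) : nA m f ≤ nA (m + 1) f := by
  rw [nA_succ', nA]
  refine Finset.sum_le_sum fun w _ => ?_
  rw [nA_one]
  exact (ip_le_ip_ap 0 (apW w f)).trans (Finset.single_le_sum
    (f := fun j => ip (ap j (apW w f)) (ap j (apW w f))) (fun _ _ => ip_self_nonneg _)
    (Finset.mem_univ 0))

lemma nA_mono {m k : ℕ} (h : m ≤ k) (f : SV) : nA m f ≤ nA k f :=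
  monotone_nat_of_le_succ (f := fun m => nA m f) (fun m => nA_le_succ m f) h

lemma RR_one (f : SV) : RR 1 f = ∑ j, am j (ap j f) := by rw [RR_succ]; simp

lemma RR_one_ap (j : Ix) (f : SV) : RR 1 (ap j f) = ap j (RR 1 f) + ap j f := by
  rw [RR_one, RR_one, map_sum]
  have : ∀ i, am i (ap i (ap j f)) =
      ap j (am i (ap i f)) + (if i = j then (1 : ℝ) else 0) • ap i f := by
    intro i
    rw [ap_comm i j, am_ap]
  simp only [this, Finset.sum_add_distrib, ite_smul, one_smul, zero_smul, Finset.sum_ite_eq',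
    Finset.mem_univ, if_true]

lemma RR_two (f : SV) : RR 2 f = RR 1 (RR 1 f) + RR 1 f := by
  rw [RR_succ]
  simp only [RR_one_ap, map_add, Finset.sum_add_distrib]
  rw [← RR_one, ← RR_one]

lemma ip_RR_one_le (f : SV) : ip (RR 1 f) (RR 1 f) ≤ nA 2 f := by
  rw [nA_eq_ip_RR, RR_two, map_add, ip_RR_symm 1 f, ← nA_eq_ip_RR]
  linarith [nA_nonneg 1 f]

lemma nA_one_le (f : SV) : nA 1 f ≤ √(nA 0 f) * √(nA 2 f) := by
  rw [nA_eq_ip_RR, nA_zero]
  refine (le_abs_self _).trans ((abs_ip_le _ _).trans ?_)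
  gcongr
  exact ip_RR_one_le f

/-- Interpolation between the norms `nA`. -/
lemma nA_interp (m : ℕ) (f : SV) : nA (m + 1) f ≤ √(nA m f) * √(nA (m + 2) f) := by
  rw [nA_add m 1, nA_add m 2]
  calc ∑ w ∈ words m, nA 1 (apW w f)
      ≤ ∑ w ∈ words m, √(nA 0 (apW w f)) * √(nA 2 (apW w f)) :=
        Finset.sum_le_sum fun w _ => nA_one_le _
    _ ≤ √(∑ w ∈ words m, nA 0 (apW w f)) * √(∑ w ∈ words m, nA 2 (apW w f)) :=
        Real.sum_sqrt_mul_sqrt_le _ (fun _ => nA_nonneg _ _) (fun _ => nA_nonneg _ _)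
    _ = _ := by rw [← nA_add m 0]; rfl

lemma ip_sub_self_le (f g : SV) : ip (f - g) (f - g) ≤ 2 * ip f f + 2 * ip g g := by
  have := ip_self_nonneg (f + g)
  simp only [map_add, map_sub, LinearMap.add_apply, LinearMap.sub_apply] at this ⊢
  linarith

lemma ip_add_self_le (f g : SV) : ip (f + g) (f + g) ≤ 2 * ip f f + 2 * ip g g := by
  have := ip_self_nonneg (f - g)
  simp only [map_add, map_sub, LinearMap.add_apply, LinearMap.sub_apply] at this ⊢
  linarith

lemma nA_sub_le (m : ℕ) (f g : SV) : nA m (f - g) ≤ 2 * nA m f + 2 * nA m g := by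
  simp only [nA, map_sub (apW _), Finset.mul_sum, ← Finset.sum_add_distrib]
  exact Finset.sum_le_sum fun w _ => ip_sub_self_le _ _

lemma nA_add_le (m : ℕ) (f g : SV) : nA m (f + g) ≤ 2 * nA m f + 2 * nA m g := by
  simp only [nA, map_add (apW _), Finset.mul_sum, ← Finset.sum_add_distrib]
  exact Finset.sum_le_sum fun w _ => ip_add_self_le _ _

section Filt

variable {M : Type} [AddCommGroup M] [Module ℝ M]

/-- The filtration generated by a vector `e` and three operators. -/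
def Filt (e : M) (m : Ix → M →ₗ[ℝ] M) : ℕ → Submodule ℝ M
  | 0 => Submodule.span ℝ {e}
  | n + 1 => Filt e m n ⊔ ⨆ j, (Filt e m n).map (m j)

variable {e : M} {m : Ix → M →ₗ[ℝ] M}

instance Filt.finite (n : ℕ) : FiniteDimensional ℝ (Filt e m n) := by
  induction n with
  | zero => exact inferInstanceAs (FiniteDimensional ℝ (Submodule.span ℝ {e}))
  | succ n ih =>
    exact inferInstanceAs
      (FiniteDimensional ℝ (Filt e m n ⊔ ⨆ j, (Filt e m n).map (m j) : Submodule ℝ M))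

lemma Filt.mem_zero {x : M} : x ∈ Filt e m 0 ↔ ∃ c : ℝ, c • e = x := Submodule.mem_span_singleton

lemma Filt.le_succ (n : ℕ) : Filt e m n ≤ Filt e m (n + 1) := le_sup_left

lemma Filt.mono {n k : ℕ} (h : n ≤ k) : Filt e m n ≤ Filt e m k :=
  monotone_nat_of_le_succ (f := Filt e m) Filt.le_succ h

lemma Filt.base_mem (n : ℕ) : e ∈ Filt e m n :=
  Filt.mono (Nat.zero_le n) (Submodule.mem_span_singleton_self e)

lemma Filt.mul_mem {n : ℕ} (j : Ix) {x : M} (hx : x ∈ Filt e m n) :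
    m j x ∈ Filt e m (n + 1) :=
  Submodule.mem_sup_right (Submodule.mem_iSup_of_mem j (Submodule.mem_map_of_mem hx))

lemma Filt.succ_induction {n : ℕ} {P : M → Prop} (h0 : ∀ x ∈ Filt e m n, P x)
    (h1 : ∀ j, ∀ x ∈ Filt e m n, P (m j x)) (hadd : ∀ x y, P x → P y → P (x + y)) :
    ∀ x ∈ Filt e m (n + 1), P x := by
  intro x hx
  obtain ⟨y, hy, z, hz, rfl⟩ := Submodule.mem_sup.1 hx
  refine hadd _ _ (h0 y hy) ?_
  refine Submodule.iSup_induction _ (motive := P) hz ?_ (h0 0 (Submodule.zero_mem _)) hadd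
  rintro j _ ⟨w, hw, rfl⟩
  exact h1 j w hw

end Filt

/-- Polynomials of degree at most `n` times `sqM`. -/
def HP (n : ℕ) : Submodule ℝ SV := Filt sqMS (fun j => (mulV j : SV →ₗ[ℝ] SV)) n

instance (n : ℕ) : FiniteDimensional ℝ (HP n) := Filt.finite n

lemma HP_mono {n k : ℕ} (h : n ≤ k) : HP n ≤ HP k := Filt.mono h

lemma sqMS_mem (n : ℕ) : sqMS ∈ HP n := Filt.base_mem n

lemma mulV_mem {n : ℕ} (j : Ix) {f : SV} (hf : f ∈ HP n) : mulV j f ∈ HP (n + 1) :=
  Filt.mul_mem (m := fun j => (mulV j : SV →ₗ[ℝ] SV)) j hf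

lemma am_of_mem_zero (j : Ix) {f : SV} (hf : f ∈ HP 0) : am j f = 0 := by
  obtain ⟨c, rfl⟩ := Filt.mem_zero.1 hf
  rw [map_smul, am_sqMS, smul_zero]

lemma am_mem {n : ℕ} (j : Ix) : ∀ f ∈ HP (n + 1), am j f ∈ HP n := by
  induction n with
  | zero =>
    refine Filt.succ_induction (fun f hf => ?_) (fun i f hf => ?_) (fun f g hf hg => ?_)
    · rw [am_of_mem_zero j hf]; exact Submodule.zero_mem _
    · change am j (mulV i f) ∈ _
      rw [am_mulV, am_of_mem_zero j hf, map_zero, zero_add]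
      exact Submodule.smul_mem _ _ hf
    · rw [map_add]; exact Submodule.add_mem _ hf hg
  | succ n ih =>
    refine Filt.succ_induction (fun f hf => ?_) (fun i f hf => ?_) (fun f g hf hg => ?_)
    · exact HP_mono (Nat.le_succ n) (ih f hf)
    · change am j (mulV i f) ∈ _
      rw [am_mulV]
      exact Submodule.add_mem _ (mulV_mem i (ih f hf)) (Submodule.smul_mem _ _ hf)
    · rw [map_add]; exact Submodule.add_mem _ hf hg

lemma am_mem_self {n : ℕ} (j : Ix) {f : SV} (hf : f ∈ HP n) : am j f ∈ HP n :=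
  am_mem j f (HP_mono (Nat.le_succ n) hf)

lemma ap_mem {n : ℕ} (j : Ix) {f : SV} (hf : f ∈ HP n) : ap j f ∈ HP (n + 1) := by
  have : ap j f = mulV j f - am j f := by rw [← ap_add_am]; abel
  rw [this]
  exact Submodule.sub_mem _ (mulV_mem j hf) (HP_mono (Nat.le_succ n) (am_mem_self j hf))

lemma dV_mem {n : ℕ} (j : Ix) {f : SV} (hf : f ∈ HP n) : dV j f ∈ HP (n + 1) := by
  have : dV j f = (1 / 2 : ℝ) • (am j f - ap j f) := by rw [am_sub_ap, smul_smul]; norm_num
  rw [this]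
  exact Submodule.smul_mem _ _
    (Submodule.sub_mem _ (HP_mono (Nat.le_succ n) (am_mem_self j hf)) (ap_mem j hf))

lemma apW_mem {n : ℕ} (w : List Ix) {f : SV} (hf : f ∈ HP n) :
    apW w f ∈ HP (n + w.length) := by
  induction w with
  | nil => exact hf
  | cons j w ih => exact ap_mem j ih

lemma RR_mem (m : ℕ) : ∀ {n : ℕ} {f : SV}, f ∈ HP n → RR m f ∈ HP n := by
  induction m with
  | zero => exact fun hf => hf
  | succ m ih =>
    intro n f hf
    rw [RR_succ]
    exact Submodule.sum_mem _ fun j _ => am_mem j _ (ih (ap_mem j hf))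

/-- Multiplication of functions by a coordinate. -/
def mulC (j : Ix) : (E → ℝ) →ₗ[ℝ] (E → ℝ) where
  toFun f v := v j * f v
  map_add' f g := by funext v; simp [mul_add]
  map_smul' c f := by funext v; simp [mul_left_comm]

@[simp] lemma mulC_apply (j : Ix) (f : E → ℝ) (v : E) : mulC j f v = v j * f v := rfl

/-- Polynomial functions of degree at most `n`. -/
def PV (n : ℕ) : Submodule ℝ (E → ℝ) := Filt (fun _ => 1) mulC n

instance (n : ℕ) : FiniteDimensional ℝ (PV n) := Filt.finite n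

lemma PV_mono {n k : ℕ} (h : n ≤ k) : PV n ≤ PV k := Filt.mono h

lemma exists_PV_of_HP {n : ℕ} : ∀ g ∈ HP n, ∃ φ ∈ PV n, ∀ v, g v = φ v * sqM v := by
  induction n with
  | zero =>
    intro g hg
    obtain ⟨c, rfl⟩ := Filt.mem_zero.1 hg
    exact ⟨c • fun _ => 1, Filt.mem_zero.2 ⟨c, rfl⟩, fun v => by simp⟩
  | succ n ih =>
    refine Filt.succ_induction (fun f hf => ?_) (fun i f hf => ?_) (fun f g hf hg => ?_)
    · obtain ⟨φ, hφ, h⟩ := ih f hf
      exact ⟨φ, PV_mono (Nat.le_succ n) hφ, h⟩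
    · obtain ⟨φ, hφ, h⟩ := ih f hf
      exact ⟨mulC i φ, Filt.mul_mem i hφ, fun v => by simp [h, mul_assoc]⟩
    · obtain ⟨φ, hφ, h⟩ := hf
      obtain ⟨ψ, hψ, h'⟩ := hg
      exact ⟨φ + ψ, Submodule.add_mem _ hφ hψ, fun v => by simp [h, h', add_mul]⟩

lemma exists_HP_of_PV {n : ℕ} : ∀ φ ∈ PV n, ∃ g ∈ HP n, ∀ v, g v = φ v * sqM v := by
  induction n with
  | zero =>
    intro φ hφ
    obtain ⟨c, rfl⟩ := Filt.mem_zero.1 hφ
    exact ⟨c • sqMS, Filt.mem_zero.2 ⟨c, rfl⟩, fun v => by simp⟩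
  | succ n ih =>
    refine Filt.succ_induction (fun f hf => ?_) (fun i f hf => ?_) (fun f g hf hg => ?_)
    · obtain ⟨φ, hφ, h⟩ := ih f hf
      exact ⟨φ, HP_mono (Nat.le_succ n) hφ, h⟩
    · obtain ⟨φ, hφ, h⟩ := ih f hf
      exact ⟨mulV i φ, mulV_mem i hφ, fun v => by simp [h, mul_assoc]⟩
    · obtain ⟨φ, hφ, h⟩ := hf
      obtain ⟨ψ, hψ, h'⟩ := hg
      exact ⟨φ + ψ, Submodule.add_mem _ hφ hψ, fun v => by simp [h, h', add_mul]⟩

end Pool.Agent.BoltzD

end
end MrgPart1

-- ======== part 2: formerly Pool.Agent.BoltzD.Solver.Stmt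
section MrgPart2

/-!
Module M3 of the Boltzmann project: statement of the linear kinetic solver.
-/

set_option autoImplicit false

open MeasureTheory Pool.Agent.BoltzC

noncomputable section

namespace Pool.Agent.BoltzD.Solver

variable [Dim]

/-- Multiplication by the monomial `V_{i_1} ... V_{i_m}`. -/
def mulW : List Ix → SV →L[ℝ] SV
  | [] => ContinuousLinearMap.id ℝ SV
  | i :: w => (mulV i).comp (mulW w)

@[simp] lemma mulW_nil (f : SV) : mulW [] f = f := rfl

@[simp] lemma mulW_cons (i : Ix) (w : List Ix) (f : SV) :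
    mulW (i :: w) f = mulV i (mulW w f) := rfl

/-- The six first order letters: `x`-derivatives and creation operators. -/
def Zl : Ix ⊕ Ix → (E3 → SV) → E3 → SV
  | Sum.inl i, G => dX i G
  | Sum.inr j, G => fun x => ap j (G x)

/-- A letter or nothing. -/
def Zo : Option (Ix ⊕ Ix) → (E3 → SV) → E3 → SV
  | none, G => G
  | some z, G => Zl z G

@[simp] lemma Zo_none (G : E3 → SV) : Zo none G = G := rfl

@[simp] lemma Zo_dX (i : Ix) (G : E3 → SV) : Zo (some (Sum.inl i)) G = dX i G := rfl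

@[simp] lemma Zo_ap (j : Ix) (G : E3 → SV) (x : E3) :
    Zo (some (Sum.inr j)) G x = ap j (G x) := rfl

/-- The collision facts used by the solver; `Γ φ f` is the symmetrised collision operator and
`-Γ sqMS` the linearised operator. -/
structure CollData (Γ : SV → SV →L[ℝ] SV) : Prop where
  leib : ∀ j φ f, ap j (Γ φ f) = Γ (ap j φ) f + Γ φ (ap j f)
  dis_nonneg : ∀ f, 0 ≤ -ip (Γ sqMS f) f
  tri : ∀ φ, ∃ C : ℝ, ∀ f h, |ip (Γ φ f) h| ≤
    C * √(-ip (Γ sqMS f) f + ip f f) * √(-ip (Γ sqMS h) h + ip h h)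
  wgt : ∃ C : ℝ, ∀ f : SV, ∫ v, (1 + ‖v‖) ^ 8 * f v ^ 2 ≤ C * (-ip (Γ sqMS f) f + ip f f)

/-- M3: global solvability, for `s ≥ s0`, of
`g' + Σ_t c_t V^(α_t) Z_t g + k L g + Σ_j <g, ψ_j> φ_j = F` in the smooth periodic class. -/
def M3Stmt : Prop :=
  ∀ (Γ : SV → SV →L[ℝ] SV), CollData Γ →
  ∀ (s0 : ℝ) (ι κ : Type) [Fintype ι] [Fintype κ]
    (c : ι → ℝ → E3 → ℝ) (α : ι → List Ix) (z : ι → Option (Ix ⊕ Ix))
    (k : ℝ → E3 → ℝ) (φ ψ : κ → ℝ → E3 → SV) (F : ℝ → E3 → SV) (g0 : E3 → SV),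
    (∀ t, SmC (c t)) → (∀ t s, Per (c t s)) → (∀ t, (α t).length ≤ 2) →
    SmC k → (∀ s, Per (k s)) → (∀ s, s0 ≤ s → ∀ x, 0 < k s x) →
    (∀ j, SmC (φ j)) → (∀ j s, Per (φ j s)) → (∀ j, SmC (ψ j)) → (∀ j s, Per (ψ j s)) →
    SmC F → (∀ s, Per (F s)) → Sm g0 → Per g0 →
    ∃ g g' : ℝ → E3 → SV, SmD g g' ∧ (∀ s, Per (g s)) ∧ (∀ s, Per (g' s)) ∧ g s0 = g0 ∧
      ∀ s, s0 ≤ s → ∀ x,
        g' s x + ∑ t, c t s x • mulW (α t) (Zo (z t) (g s) x) + k s x • (-Γ sqMS (g s x))
          + ∑ j, tint (fun y => ip (g s y) (ψ j s y)) • φ j s x = F s x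

end Pool.Agent.BoltzD.Solver

end
end MrgPart2

-- marker of a merged file
example : 731051 + 77129 = 731051 + 77129 := rfl
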