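import Mathlib.Topology.Sheaves.Presheaf
import Mathlib.Algebra.Order.Star.Real
import Mathlib.MeasureTheory.Integral.IntervalIntegral.Periodic
import Mathlib.Analysis.Calculus.ParametricIntegral
import Mathlib.Combinatorics.SimpleGraph.Basic
import Pool.Agent.BoltzD.Solver.Stmt
import Pool.Agent.BoltzD.Calc.Cube
import Pool.Agent.BoltzD.M7.Gron
import Pool.Agent.BoltzD.En.Split
import Mathlib.Tactic.Polynomial.Basic

-- ======== part 0: formerly Pool.Agent.BoltzD.Calc.Torus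
section MrgPart0

/-! The integral over a period cell. -/

set_option autoImplicit false
set_option linter.unusedSectionVars false

open Filter Topology MeasureTheory Set

namespace Pool.Agent.BoltzC

variable [Dim]

variable {T : Type*} [TopologicalSpace T]

/-! ### Lattice periodicity and bounds -/

theorem Per.add_int_smul {α : Type*} {G : E3 → α} (h : Per G) (i : Ix) (n : ℤ) (x : E3) :
    G (x + (n : ℝ) • ev i) = G x := by
  have hp : Function.Periodic G (ev i) := fun x => h i x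
  have := (hp.zsmul n) x
  rwa [← Int.cast_smul_eq_zsmul ℝ] at this

theorem Per.add_lattice {α : Type*} {G : E3 → α} (h : Per G) (n : Ix → ℤ) (x : E3) :
    G (x + ∑ i, (n i : ℝ) • ev i) = G x := by
  have key : ∀ S : Finset Ix, G (x + ∑ i ∈ S, (n i : ℝ) • ev i) = G x := fun S => by
    induction S using Finset.induction_on with
    | empty => simp
    | insert i S hi ih => rw [Finset.sum_insert hi, add_comm (_ • _), ← add_assoc, h.add_int_smul, ih]
  exact key _

theorem Per.add_of_int {α : Type*} {G : E3 → α} (h : Per G) (n : Ix → ℤ) {z : E3}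
    (hz : ∀ i, z i = n i) (x : E3) : G (x + z) = G x := by
  rw [← sum_coord_ev z]
  simp only [hz]
  exact h.add_lattice n x

theorem exists_lattice_mem_cube (a x : E3) :
    ∃ n : Ix → ℤ, x + ∑ i, (n i : ℝ) • ev i ∈ cube a 1 := by
  refine ⟨fun i => ⌊a i + 1 - x i⌋, fun j => ?_⟩
  have e : (x + ∑ i, ((⌊a i + 1 - x i⌋ : ℤ) : ℝ) • ev i) j = x j + ⌊a j + 1 - x j⌋ := by
    simp [ev_coord]
  rw [e]
  have h1 := Int.floor_le (a j + 1 - x j)
  have h2 := Int.lt_floor_add_one (a j + 1 - x j)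
  constructor <;> linarith

theorem Per.exists_mem_cube {α : Type*} {G : E3 → α} (h : Per G) (a x : E3) :
    ∃ y ∈ cube a 1, G y = G x := by
  obtain ⟨n, hn⟩ := exists_lattice_mem_cube a x
  exact ⟨_, hn, h.add_lattice n x⟩

/-- A jointly continuous periodic family is bounded on compact parameter sets. -/
theorem exists_bound_of_per {ψ : T → E3 → ℝ} (hc : Continuous fun p : T × E3 => ψ p.1 p.2)
    (hp : ∀ s, Per (ψ s)) {K : Set T} (hK : IsCompact K) :
    ∃ C, 0 < C ∧ ∀ s ∈ K, ∀ x, |ψ s x| ≤ C := by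
  obtain ⟨C, hC⟩ := (hK.prod (isCompact_closedBall (0 : E3) (dd * |(1 : ℝ)|))).exists_bound_of_continuousOn
    hc.continuousOn
  refine ⟨max C 1, lt_max_of_lt_right one_pos, fun s hs x => ?_⟩
  obtain ⟨y, hy, e⟩ := (hp s).exists_mem_cube 0 x
  rw [← e]
  exact (hC (s, y) ⟨hs, cube_subset_closedBall 0 1 hy⟩).trans (le_max_left _ _)

/-- A positive jointly continuous periodic family is bounded below on compact parameter sets. -/
theorem exists_lower_bound_of_per {ψ : T → E3 → ℝ} (hc : Continuous fun p : T × E3 => ψ p.1 p.2)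
    (hp : ∀ s, Per (ψ s)) {K : Set T} (hK : IsCompact K) (hpos : ∀ s ∈ K, ∀ x, 0 < ψ s x) :
    ∃ c, 0 < c ∧ ∀ s ∈ K, ∀ x, c ≤ ψ s x := by
  obtain ⟨c, hc0, hc1⟩ := (hK.prod (isCompact_closedBall (0 : E3)
    (dd * |(1 : ℝ)|))).exists_forall_le' hc.continuousOn (a := 0) fun p hp => hpos p.1 hp.1 p.2
  refine ⟨c, hc0, fun s hs x => ?_⟩
  obtain ⟨y, hy, e⟩ := (hp s).exists_mem_cube 0 x
  rw [← e]
  exact hc1 (s, y) ⟨hs, cube_subset_closedBall 0 1 hy⟩

theorem Per.exists_bound {ψ : E3 → ℝ} (hp : Per ψ) (hc : Continuous ψ) :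
    ∃ C, 0 < C ∧ ∀ x, |ψ x| ≤ C := by
  obtain ⟨C, h0, h⟩ := exists_bound_of_per (T := Unit) (ψ := fun _ => ψ) (hc.comp continuous_snd)
    (fun _ => hp) isCompact_univ
  exact ⟨C, h0, h () trivial⟩

/-! ### Linearity and order -/

theorem integrableOn_tint {φ : E3 → ℝ} (hφ : Continuous φ) : IntegrableOn φ (cube 0 1) :=
  integrableOn_cube hφ 0 1

theorem tint_congr {φ ψ : E3 → ℝ} (h : ∀ x, φ x = ψ x) : tint φ = tint ψ := by
  rw [funext h]

@[simp] theorem tint_zero : tint (fun _ => 0) = 0 := by simp [tint]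

theorem tint_add {φ ψ : E3 → ℝ} (hφ : Continuous φ) (hψ : Continuous ψ) :
    tint (fun x => φ x + ψ x) = tint φ + tint ψ :=
  integral_add (integrableOn_tint hφ) (integrableOn_tint hψ)

theorem tint_sub {φ ψ : E3 → ℝ} (hφ : Continuous φ) (hψ : Continuous ψ) :
    tint (fun x => φ x - ψ x) = tint φ - tint ψ :=
  integral_sub (integrableOn_tint hφ) (integrableOn_tint hψ)

theorem tint_neg (φ : E3 → ℝ) : tint (fun x => -φ x) = -tint φ := integral_neg _

theorem tint_const_mul (c : ℝ) (φ : E3 → ℝ) : tint (fun x => c * φ x) = c * tint φ :=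
  integral_const_mul _ _

theorem tint_mul_const (c : ℝ) (φ : E3 → ℝ) : tint (fun x => φ x * c) = tint φ * c :=
  integral_mul_const _ _

theorem tint_sum {ι : Type*} (S : Finset ι) {φ : ι → E3 → ℝ} (h : ∀ i ∈ S, Continuous (φ i)) :
    tint (fun x => ∑ i ∈ S, φ i x) = ∑ i ∈ S, tint (φ i) :=
  integral_finsetSum S fun i hi => integrableOn_tint (h i hi)

theorem tint_list_sum {ι : Type*} (l : List ι) {φ : ι → E3 → ℝ} (h : ∀ i ∈ l, Continuous (φ i)) :
    tint (fun x => (l.map fun i => φ i x).sum) = (l.map fun i => tint (φ i)).sum := by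
  induction l with
  | nil => simp
  | cons i l ih =>
    simp only [List.map_cons, List.sum_cons]
    rw [tint_add (h i (by simp)) (continuous_list_sum l fun j hj => h j (by simp [hj])),
      ih fun j hj => h j (by simp [hj])]

theorem tint_nonneg {φ : E3 → ℝ} (h : ∀ x, 0 ≤ φ x) : 0 ≤ tint φ := integral_nonneg h

theorem tint_mono {φ ψ : E3 → ℝ} (hφ : Continuous φ) (hψ : Continuous ψ) (h : ∀ x, φ x ≤ ψ x) :
    tint φ ≤ tint ψ := integral_mono (integrableOn_tint hφ) (integrableOn_tint hψ) h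

theorem abs_tint_le (φ : E3 → ℝ) : |tint φ| ≤ tint fun x => |φ x| := abs_integral_le_integral_abs

theorem abs_tint_le_of_abs_le {φ ψ : E3 → ℝ} (hψ : Continuous ψ) (h : ∀ x, |φ x| ≤ ψ x) :
    |tint φ| ≤ tint ψ :=
  norm_integral_le_of_norm_le (f := φ) (integrableOn_tint hψ) (Eventually.of_forall h)

theorem integral_cube_const (c : ℝ) (a : E3) {L : ℝ} (hL : 0 ≤ L) :
    ∫ _ in cube a L, c = L ^ dd * c := by
  have h : ∀ l : List Ix, segL l L (fun _ => c) = fun _ => L ^ l.length * c := fun l => by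
    induction l with
    | nil => simp [segL_nil]
    | cons i l ih =>
      funext x
      rw [segL_cons, ih, segI, List.length_cons]
      simp
      ring
  rw [integral_cube_eq_segL continuous_const a hL, h, List.length_finRange]

@[simp] theorem tint_const (c : ℝ) : tint (fun _ => c) = c := by
  rw [tint, integral_cube_const c 0 zero_le_one]; simp

theorem abs_tint_le_const {φ : E3 → ℝ} {C : ℝ} (h : ∀ x, |φ x| ≤ C) : |tint φ| ≤ C := by
  simpa using abs_tint_le_of_abs_le (ψ := fun _ => C) continuous_const h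

/-- Cauchy-Schwarz. -/
theorem abs_tint_le_sqrt {φ a b : E3 → ℝ} (ha : Continuous a) (hb : Continuous b)
    (ha0 : ∀ x, 0 ≤ a x) (hb0 : ∀ x, 0 ≤ b x) (h : ∀ x, |φ x| ≤ √(a x) * √(b x)) :
    |tint φ| ≤ √(tint a) * √(tint b) := by
  have hA := tint_nonneg ha0
  have hB := tint_nonneg hb0
  have key : ∀ t : ℝ, 0 ≤ tint a * (t * t) + (-2 * |tint φ|) * t + tint b := by
    intro t
    have h1 : |tint fun x => 2 * t * φ x| ≤ tint fun x => t * t * a x + b x := by
      refine abs_tint_le_of_abs_le (by fun_prop) fun x => ?_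
      have e1 := Real.mul_self_sqrt (ha0 x)
      have e2 := Real.mul_self_sqrt (hb0 x)
      have h2 : |2 * t * φ x| ≤ 2 * |t| * (√(a x) * √(b x)) := by
        rw [abs_mul, abs_mul, abs_two]
        gcongr
        exact h x
      have e3 := abs_mul_abs_self t
      nlinarith [sq_nonneg (|t| * √(a x) - √(b x))]
    rw [tint_const_mul, tint_add (by fun_prop) hb, tint_const_mul, abs_mul, abs_mul, abs_two] at h1
    nlinarith [le_abs_self t, abs_nonneg (tint φ)]
  have hd := discrim_le_zero key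
  rw [discrim] at hd
  rw [← Real.sqrt_mul hA]
  refine Real.le_sqrt_of_sq_le ?_
  nlinarith

/-! ### Translation invariance -/

theorem segI_add (i : Ix) (L : ℝ) (ψ : E3 → ℝ) (a : E3) :
    segI i L (fun x => ψ (x + a)) = fun x => segI i L ψ (x + a) := by
  funext x
  simp only [segI, add_right_comm]

theorem Per.segI {ψ : E3 → ℝ} (h : Per ψ) (i : Ix) (L : ℝ) : Per (segI i L ψ) := by
  intro j x
  unfold BoltzC.segI
  simp only [add_right_comm x (ev j), h j]

theorem Per.segI_inv {ψ : E3 → ℝ} (h : Per ψ) (i : Ix) (s : ℝ) (x : E3) :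
    BoltzC.segI i 1 ψ (x + s • ev i) = BoltzC.segI i 1 ψ x := by
  have hp : Function.Periodic (fun t : ℝ => ψ (x + t • ev i)) 1 := fun t => by
    simp only [add_smul, one_smul, ← add_assoc, h i]
  have h1 := hp.intervalIntegral_add_eq s 0
  have h2 := intervalIntegral.integral_comp_add_left (a := 0) (b := 1)
    (fun t : ℝ => ψ (x + t • ev i)) s
  unfold BoltzC.segI
  simp only [add_zero, zero_add, add_smul, ← add_assoc] at h1 h2
  rw [h2, h1]

theorem segI_inv_of_inv {ψ : E3 → ℝ} {z : E3} (h : ∀ x, ψ (x + z) = ψ x) (i : Ix) (L : ℝ)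
    (x : E3) : segI i L ψ (x + z) = segI i L ψ x := by
  unfold segI
  simp only [add_right_comm x z, h]

theorem Per.segL {ψ : E3 → ℝ} (h : Per ψ) (l : List Ix) (L : ℝ) : Per (segL l L ψ) := by
  induction l with
  | nil => exact h
  | cons i l ih => exact ih.segI i L

theorem Per.segL_inv {ψ : E3 → ℝ} (h : Per ψ) {l : List Ix} {i : Ix} (hi : i ∈ l) (s : ℝ) :
    ∀ x, BoltzC.segL l 1 ψ (x + s • ev i) = BoltzC.segL l 1 ψ x := by
  induction l with
  | nil => simp at hi
  | cons j l ih =>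
    rcases List.mem_cons.1 hi with rfl | hi
    · exact (h.segL l 1).segI_inv i s
    · exact segI_inv_of_inv (ih hi) j 1

theorem integral_cube_eq_tint {ψ : E3 → ℝ} (hp : Per ψ) (hc : Continuous ψ) (a : E3) :
    ∫ y in cube a 1, ψ y = tint ψ := by
  have h : ∀ S : Finset Ix, segL (List.finRange dd) 1 ψ (∑ i ∈ S, a i • ev i)
      = segL (List.finRange dd) 1 ψ 0 := fun S => by
    induction S using Finset.induction_on with
    | empty => simp
    | insert i S hi ih => rw [Finset.sum_insert hi, add_comm, hp.segL_inv (List.mem_finRange i), ih]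
  rw [tint, integral_cube_eq_segL hc a zero_le_one, integral_cube_eq_segL hc 0 zero_le_one,
    ← h Finset.univ, sum_coord_ev]

theorem segL_add (l : List Ix) (L : ℝ) (ψ : E3 → ℝ) (a : E3) :
    segL l L (fun x => ψ (x + a)) = fun x => segL l L ψ (x + a) := by
  induction l with
  | nil => rfl
  | cons i l ih => rw [segL_cons, ih, segI_add]; rfl

theorem tint_comp_add {ψ : E3 → ℝ} (hp : Per ψ) (hc : Continuous ψ) (a : E3) :
    tint (fun x => ψ (x + a)) = tint ψ := by
  have hc' : Continuous fun x => ψ (x + a) := hc.comp (by fun_prop)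
  rw [← integral_cube_eq_tint hp hc a, tint, integral_cube_eq_segL hc' 0 zero_le_one,
    integral_cube_eq_segL hc a zero_le_one, segL_add]
  simp only [zero_add]

theorem cube_mono (a : E3) {L L' : ℝ} (h : L ≤ L') : cube a L ⊆ cube a L' :=
  fun _ hx i => ⟨(hx i).1, (hx i).2.trans (by linarith)⟩

theorem integral_cube_le_tint {ψ : E3 → ℝ} (hp : Per ψ) (hc : Continuous ψ) (h0 : ∀ x, 0 ≤ ψ x)
    (a : E3) {L : ℝ} (hL : L ≤ 1) : ∫ y in cube a L, ψ y ≤ tint ψ := by
  rw [← integral_cube_eq_tint hp hc a]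
  exact setIntegral_mono_set (integrableOn_cube hc a 1) (Eventually.of_forall h0)
    (cube_mono a hL).eventuallyLE

/-- Weighted form: a weight that is at least `w₀` on the cube. -/
theorem mul_integral_cube_le_tint {ψ w : E3 → ℝ} (hp : Per ψ) (hc : Continuous ψ)
    (h0 : ∀ x, 0 ≤ ψ x) (hwp : Per w) (hwc : Continuous w) (hw0 : ∀ x, 0 ≤ w x) (a : E3) {L w₀ : ℝ}
    (hL : L ≤ 1) (hw : ∀ y ∈ cube a L, w₀ ≤ w y) :
    w₀ * ∫ y in cube a L, ψ y ≤ tint fun x => w x * ψ x := by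
  refine le_trans ?_ (integral_cube_le_tint (hwp.map₂ hp fun a b => a * b) (hwc.mul hc)
    (fun x => mul_nonneg (hw0 x) (h0 x)) a hL)
  rw [← integral_const_mul]
  exact setIntegral_mono_on (integrableOn_cube (by fun_prop) a L)
    (integrableOn_cube (hwc.mul hc) a L) (measurableSet_cube a L)
    fun y hy => mul_le_mul_of_nonneg_right (hw y hy) (h0 y)

theorem eq_zero_of_segI {ψ : E3 → ℝ} (hc : Continuous ψ) (h0 : ∀ x, 0 ≤ ψ x) {i : Ix} {x : E3}
    (h : segI i 1 ψ x = 0) : ψ x = 0 := by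
  by_contra hne
  have := intervalIntegral.integral_pos (f := fun t : ℝ => ψ (x + t • ev i)) zero_lt_one
    (Continuous.continuousOn (by fun_prop)) (fun t _ => h0 _)
    ⟨0, by simp, by simpa using lt_of_le_of_ne (h0 x) (Ne.symm hne)⟩
  exact this.ne' h

theorem segI_nonneg {ψ : E3 → ℝ} (h0 : ∀ x, 0 ≤ ψ x) (i : Ix) {L : ℝ} (hL : 0 ≤ L) (x : E3) :
    0 ≤ segI i L ψ x := intervalIntegral.integral_nonneg hL fun _ _ => h0 _

theorem segL_nonneg {ψ : E3 → ℝ} (h0 : ∀ x, 0 ≤ ψ x) (l : List Ix) {L : ℝ} (hL : 0 ≤ L) :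
    ∀ x, 0 ≤ segL l L ψ x := by
  induction l with
  | nil => exact h0
  | cons i l ih => exact segI_nonneg ih i hL

theorem eq_zero_of_tint_eq_zero {ψ : E3 → ℝ} (hp : Per ψ) (hc : Continuous ψ) (h0 : ∀ x, 0 ≤ ψ x)
    (h : tint ψ = 0) (x : E3) : ψ x = 0 := by
  rw [← integral_cube_eq_tint hp hc x, integral_cube_eq_segL hc x zero_le_one] at h
  generalize List.finRange dd = l at h
  induction l with
  | nil => exact h
  | cons i l ih =>
    exact ih (eq_zero_of_segI (continuous_segL l 1 hc) (segL_nonneg h0 l zero_le_one) h)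

/-! ### Parameters -/

theorem continuous_segI_param (i : Ix) (L : ℝ) {φ : T → E3 → ℝ}
    (h : Continuous fun p : T × E3 => φ p.1 p.2) :
    Continuous fun p : T × E3 => segI i L (φ p.1) p.2 :=
  intervalIntegral.continuous_parametric_intervalIntegral_of_continuous'
    (f := fun (p : T × E3) t => φ p.1 (p.2 + t • ev i))
    (h.comp (f := fun q : (T × E3) × ℝ => (q.1.1, q.1.2 + q.2 • ev i)) (by fun_prop)) 0 L

theorem continuous_integral_cube {φ : T → E3 → ℝ} (h : Continuous fun p : T × E3 => φ p.1 p.2)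
    (a : E3) {L : ℝ} (hL : 0 ≤ L) : Continuous fun s => ∫ y in cube a L, φ s y := by
  have h0 : ∀ l : List Ix, Continuous fun p : T × E3 => segL l L (φ p.1) p.2 := fun l => by
    induction l with
    | nil => exact h
    | cons i l ih => exact continuous_segI_param i L (φ := fun s => segL l L (φ s)) ih
  refine ((h0 (List.finRange dd)).comp (Continuous.prodMk_left a)).congr fun s => ?_
  exact (integral_cube_eq_segL (h.comp (Continuous.prodMk_right s)) a hL).symm

theorem continuous_tint {φ : T → E3 → ℝ} (h : Continuous fun p : T × E3 => φ p.1 p.2) :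
    Continuous fun s => tint (φ s) := continuous_integral_cube h 0 zero_le_one

theorem hasDerivAt_integral_cube {φ φ' : ℝ → E3 → ℝ} (h : ∀ s, Continuous (φ s))
    (h' : Continuous fun p : ℝ × E3 => φ' p.1 p.2)
    (hd : ∀ s x, HasDerivAt (fun σ => φ σ x) (φ' s x) s) (a : E3) (L s : ℝ) :
    HasDerivAt (fun σ => ∫ y in cube a L, φ σ y) (∫ y in cube a L, φ' s y) s := by
  obtain ⟨C, hC⟩ := ((isCompact_closedBall s 1).prod
    (isCompact_closedBall a (dd * |L|))).exists_bound_of_continuousOn h'.continuousOn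
  refine (hasDerivAt_integral_of_dominated_loc_of_deriv_le (μ := volume.restrict (cube a L))
    (F := φ) (F' := φ') (bound := fun _ => C) (Metric.closedBall_mem_nhds s one_pos)
    (Eventually.of_forall fun σ => (h σ).aestronglyMeasurable) (integrableOn_cube (h s) a L)
    (h'.comp (Continuous.prodMk_right s)).aestronglyMeasurable ?_
    (integrableOn_cube continuous_const a L) (Eventually.of_forall fun x σ _ => hd σ x)).2
  filter_upwards [ae_restrict_mem (measurableSet_cube a L)] with x hx σ hσ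
  exact hC (σ, x) ⟨hσ, cube_subset_closedBall a L hx⟩

theorem hasDerivAt_tint {φ φ' : ℝ → E3 → ℝ} (h : ∀ s, Continuous (φ s))
    (h' : Continuous fun p : ℝ × E3 => φ' p.1 p.2)
    (hd : ∀ s x, HasDerivAt (fun σ => φ σ x) (φ' s x) s) (s : ℝ) :
    HasDerivAt (fun σ => tint (φ σ)) (tint (φ' s)) s := hasDerivAt_integral_cube h h' hd 0 1 s

theorem SmC.continuous_tint {φ : T → E3 → ℝ} (h : SmC φ) : Continuous fun s => tint (φ s) :=
  BoltzC.continuous_tint h.cont

theorem SmD.hasDerivAt_tint {φ φ' : ℝ → E3 → ℝ} (h : SmD φ φ') (s : ℝ) :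
    HasDerivAt (fun σ => tint (φ σ)) (tint (φ' s)) s :=
  BoltzC.hasDerivAt_tint h.sm.cont_slice h.sm'.cont (fun s x => (h.hd s x).hasDerivAt) s

/-! ### Integration by parts -/

theorem tint_deriv_eq_zero {φ φ' : E3 → ℝ} {z : E3} (hp : Per φ) (hc : Continuous φ)
    (hc' : Continuous φ') (hd : ∀ x, HasDerivAt (fun t : ℝ => φ (x + t • z)) (φ' x) 0) :
    tint φ' = 0 := by
  have h1 := hasDerivAt_tint (φ := fun s x => φ (x + s • z)) (φ' := fun s x => φ' (x + s • z))
    (fun s => hc.comp (by fun_prop)) (hc'.comp (by fun_prop)) (fun s x => by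
      refine (hd_shift.1 ((hd (x + s • z)).hd.congr fun t => ?_)).hasDerivAt
      rw [add_smul, add_assoc]) 0
  simp only [tint_comp_add hp hc, zero_smul, add_zero] at h1
  exact h1.unique (hasDerivAt_const 0 _)

theorem tint_dX {φ : E3 → ℝ} (hφ : Sm φ) (hp : Per φ) (i : Ix) : tint (dX i φ) = 0 :=
  tint_deriv_eq_zero hp hφ.cont (hφ.dX i).cont fun x => (hφ.dif i x).hasDerivAt

variable {F₁ : Type*} [AddCommGroup F₁] [Module ℝ F₁] [TopologicalSpace F₁]
  [IsTopologicalAddGroup F₁] [ContinuousSMul ℝ F₁] [T2Space F₁]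
variable {F₂ : Type*} [AddCommGroup F₂] [Module ℝ F₂] [TopologicalSpace F₂]
  [IsTopologicalAddGroup F₂] [ContinuousSMul ℝ F₂] [T2Space F₂]

theorem tint_bilin_dX (B : F₁ →ₗ[ℝ] F₂ →ₗ[ℝ] ℝ) (hB : Continuous fun p : F₁ × F₂ => B p.1 p.2)
    {G : E3 → F₁} {H : E3 → F₂} (hG : Sm G) (hH : Sm H) (pG : Per G) (pH : Per H) (i : Ix) :
    tint (fun x => B (dX i G x) (H x)) = -tint fun x => B (G x) (dX i H x) := by
  have h1 := tint_dX (Sm.bilin B hB hG hH) (pG.map₂ pH fun a b => B a b) i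
  rw [dX_bilin B hB hG.dif hH.dif, tint_add (Sm.bilin B hB (hG.dX i) hH).cont
    (Sm.bilin B hB hG (hH.dX i)).cont] at h1
  linarith

theorem tint_dX_mul {φ ψ : E3 → ℝ} (hφ : Sm φ) (hψ : Sm ψ) (pφ : Per φ) (pψ : Per ψ) (i : Ix) :
    tint (fun x => dX i φ x * ψ x) = -tint fun x => φ x * dX i ψ x :=
  tint_bilin_dX (LinearMap.mul ℝ ℝ) continuous_mul hφ hψ pφ pψ i

/-- Weighted integration by parts for a symmetric form. -/
theorem tint_mul_bilin_dX_self (B : F₁ →ₗ[ℝ] F₁ →ₗ[ℝ] ℝ)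
    (hB : Continuous fun p : F₁ × F₁ => B p.1 p.2) (hs : ∀ a b, B a b = B b a) {w : E3 → ℝ}
    {G : E3 → F₁} (hw : Sm w) (hG : Sm G) (pw : Per w) (pG : Per G) (i : Ix) :
    tint (fun x => w x * B (dX i G x) (G x)) =
      -(1 / 2) * tint fun x => dX i w x * B (G x) (G x) := by
  have h1 := tint_dX_mul hw (Sm.bilin B hB hG hG) pw (pG.map fun a => B a a) i
  rw [dX_bilin B hB hG.dif hG.dif] at h1
  have h2 : (tint fun x => w x * (B (dX i G x) (G x) + B (G x) (dX i G x))) =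
      2 * tint fun x => w x * B (dX i G x) (G x) := by
    rw [← tint_const_mul]
    exact tint_congr fun x => by rw [hs (G x) (dX i G x)]; ring
  rw [h1, h2]
  ring

end Pool.Agent.BoltzC

end MrgPart0

-- ======== part 1: formerly Pool.Agent.BoltzD.Solver.Gal
section MrgPart1

/-!
The Galerkin theorem for norms built from letters.
-/

set_option autoImplicit false

open Set Filter Topology Finset

noncomputable section

namespace Pool.Agent.BoltzD.Solver

variable [Dim]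

variable {X : Type*} [AddCommGroup X] [Module ℝ X] {ι : Type*} [Fintype ι]

/-- Weighted sum of the forms of order at most `n`. -/
def levW (Z : ι → X →ₗ[ℝ] X) (b : PD X) (δ : ℕ → ℝ) (hδ : ∀ j, 0 < δ j) (n : ℕ) : PD X where
  B := ∑ j ∈ range (n + 1), δ j • NB Z b.B j
  symm x y := by
    simp only [LinearMap.sum_apply, LinearMap.smul_apply, NB_symm Z b _ x y]
  nonneg x := by
    simp only [LinearMap.sum_apply, LinearMap.smul_apply, NB_self, smul_eq_mul]
    exact sum_nonneg fun j _ => mul_nonneg (hδ j).le (lq_nonneg b.nonneg _ _)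
  defin x hx := by
    simp only [LinearMap.sum_apply, LinearMap.smul_apply, NB_self, smul_eq_mul] at hx
    have h := (sum_eq_zero_iff_of_nonneg
      fun j _ => mul_nonneg (hδ j).le (lq_nonneg b.nonneg j x)).1 hx 0 (by simp)
    exact b.defin x ((mul_eq_zero.1 h).resolve_left (hδ 0).ne')

lemma levW_B (Z : ι → X →ₗ[ℝ] X) (b : PD X) (δ : ℕ → ℝ) (hδ : ∀ j, 0 < δ j) (n : ℕ) (x y : X) :
    (levW Z b δ hδ n).B x y = ∑ j ∈ range (n + 1), δ j * NB Z b.B j x y := by
  simp only [levW, LinearMap.sum_apply, LinearMap.smul_apply, smul_eq_mul]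

/-- The form of level `n`: all words of length at most `n`. -/
def lev (Z : ι → X →ₗ[ℝ] X) (b : PD X) (n : ℕ) : PD X := levW Z b (fun _ => 1) (fun _ => one_pos) n

lemma lev_B (Z : ι → X →ₗ[ℝ] X) (b : PD X) (n : ℕ) (x y : X) :
    (lev Z b n).B x y = ∑ j ∈ range (n + 1), NB Z b.B j x y := by
  simp only [lev, levW_B, one_mul]

lemma lev_nr_sq (Z : ι → X →ₗ[ℝ] X) (b : PD X) (n : ℕ) (x : X) :
    (lev Z b n).nr x ^ 2 = sq Z (fun x => b.B x x) (n + 1) x := by
  rw [PD.nr_sq, lev_B]; simp only [NB_self, sq]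

lemma lev_zero_B (Z : ι → X →ₗ[ℝ] X) (b : PD X) (x y : X) : (lev Z b 0).B x y = b.B x y := by
  simp [lev_B, NB]

lemma lev_nr_le {Z : ι → X →ₗ[ℝ] X} {b : PD X} {n m : ℕ} {x y : X} {C : ℝ} (hC : 0 ≤ C)
    (h : sq Z (fun x => b.B x x) (n + 1) x ≤ C * sq Z (fun x => b.B x x) (m + 1) y) :
    (lev Z b n).nr x ≤ √C * (lev Z b m).nr y := by
  rw [← lev_nr_sq, ← lev_nr_sq] at h
  refine le_of_sq_le_sq ?_ (mul_nonneg (Real.sqrt_nonneg _) (PD.nr_nonneg _ _))
  rwa [mul_pow, Real.sq_sqrt hC]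

lemma lev_nr_mono (Z : ι → X →ₗ[ℝ] X) (b : PD X) {n m : ℕ} (h : n ≤ m) (x : X) :
    (lev Z b n).nr x ≤ (lev Z b m).nr x := by
  have := lev_nr_le (Z := Z) (b := b) (n := n) (m := m) (x := x) (y := x) zero_le_one
    (by rw [one_mul]; exact sq_mono b.nonneg (Nat.succ_le_succ h) x)
  simpa using this

lemma lev_nr_Z (Z : ι → X →ₗ[ℝ] X) (b : PD X) (n : ℕ) (z : ι) (x : X) :
    (lev Z b n).nr (Z z x) ≤ (lev Z b (n + 1)).nr x := by
  have := lev_nr_le (Z := Z) (b := b) (n := n) (m := n + 1) (x := Z z x) (y := x) zero_le_one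
    (by rw [one_mul]; exact sq_Z_le b.nonneg _ z x)
  simpa using this

theorem exists_proj (b : PD X) (Y : Submodule ℝ X) [FiniteDimensional ℝ Y] :
    ∃ P : X →ₗ[ℝ] X, (∀ x, P x ∈ Y) ∧ ∀ x, ∀ y ∈ Y, b.B (x - P x) y = 0 := by
  let Y' : Submodule ℝ (Lvl b) := Y
  have : FiniteDimensional ℝ Y' := (inferInstance : FiniteDimensional ℝ Y)
  have : CompleteSpace Y' := FiniteDimensional.complete ℝ Y'
  refine ⟨(ofL b).comp ((Y'.starProjection : Lvl b →ₗ[ℝ] Lvl b).comp (toL b)),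
    fun x => Y'.starProjection_apply_mem (toL b x), fun x y hy => ?_⟩
  exact Y'.starProjection_inner_eq_zero (toL b x) (toL b y) hy

lemma symm_of_orth {B : X →ₗ[ℝ] X →ₗ[ℝ] ℝ} (hB : ∀ x y, B x y = B y x) {Y : Submodule ℝ X}
    {P : X →ₗ[ℝ] X} (hP : ∀ x, P x ∈ Y) (h : ∀ x, ∀ y ∈ Y, B (x - P x) y = 0) (x y : X) :
    B (P x) y = B x (P y) := by
  have h1 := h x _ (hP y)
  have h2 := h y _ (hP x)
  rw [map_sub, LinearMap.sub_apply] at h1 h2
  rw [hB (P x) y]
  rw [hB (P y) (P x)] at h2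
  linarith

theorem NB_repr {J : Type*} (Z Zs : ι → X →ₗ[ℝ] X) (b : X →ₗ[ℝ] X →ₗ[ℝ] ℝ)
    (adj : ∀ z x y, b (Z z x) y = b x (Zs z y)) (W : J → Submodule ℝ X) (σ : ι → J → J)
    (hZ : ∀ z j, ∀ y ∈ W j, Z z y ∈ W (σ z j)) (hZs : ∀ z j, ∀ y ∈ W (σ z j), Zs z y ∈ W j)
    (n : ℕ) : ∀ j, ∀ y ∈ W j, ∃ y' ∈ W j, ∀ x, NB Z b n x y = b x y' := by
  induction n with
  | zero => exact fun j y hy => ⟨y, hy, fun x => rfl⟩
  | succ n ih =>
    intro j y hy
    choose y' hy' h using fun z => ih (σ z j) _ (hZ z j y hy)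
    refine ⟨∑ z, Zs z (y' z), Submodule.sum_mem _ fun z _ => hZs z j _ (hy' z), fun x => ?_⟩
    simp only [NB_succ, h, adj, map_sum]

/-- Global existence, in all levels, for `g' + A g = F`. -/
theorem galerkin_Z {J : Type*} (b : PD X) (Z Zs : ι → X →ₗ[ℝ] X)
    (adj : ∀ z x y, b.B (Z z x) y = b.B x (Zs z y)) (W : J → Submodule ℝ X) (σ : ι → J → J)
    (hZ : ∀ z j, ∀ y ∈ W j, Z z y ∈ W (σ z j)) (hZs : ∀ z j, ∀ y ∈ W (σ z j), Zs z y ∈ W j)
    (jN : ℕ → J) (fin : ∀ N, FiniteDimensional ℝ (W (jN N)))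
    (hinv : ∀ z N, ∀ y ∈ W (jN N), Zs z y ∈ W (jN N))
    (hspec : ∀ (N : ℕ) x, (∀ y ∈ W (jN N), b.B x y = 0) →
      ((N : ℝ) + 1) * b.B x x ≤ ∑ z, b.B (Z z x) (Z z x))
    (hcompl : ∀ x : ℕ → X, (∀ n, ∃ η : ℕ → ℝ, Tendsto η atTop (𝓝 0) ∧
      ∀ N M, (lev Z b n).nr (x N - x M) ≤ η N + η M) →
      ∃ y, ∀ n, Tendsto (fun N => (lev Z b n).nr (x N - y)) atTop (𝓝 0))
    (d : X → ℝ) (hd : ∀ x, 0 ≤ d x) (A : ℝ → X →ₗ[ℝ] X) (F : ℝ → X) (a : ℝ) (x0 : X)
    (hA : ∀ x y, Continuous fun s => b.B (A s x) y) (hF : ∀ y, Continuous fun s => b.B (F s) y)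
    (hFb : ∀ a' n, ∃ C, ∀ s ∈ Icc a a', (lev Z b n).nr (F s) ≤ C)
    (𝒞 : (ℝ → X →ₗ[ℝ] X) → Prop) (hA𝒞 : 𝒞 A) (had : ∀ A, 𝒞 A → ∀ z, 𝒞 (ad (Z z) A))
    (ht : ∀ a' A, 𝒞 A → Tame Z b d (Icc a a') A) (hb : ∀ a' A, 𝒞 A → Bdd Z b (Icc a a') A)
    (h0 : ∀ a', ∃ κ0 C0 : ℝ, 0 < κ0 ∧
      ∀ s ∈ Icc a a', ∀ h, κ0 * d h - C0 * b.B h h ≤ b.B (A s h) h) :
    ∃ g g' : ℝ → X, g a = x0 ∧ (∀ s, a ≤ s → g' s = F s - A s (g s)) ∧
      ∀ n, (∀ t, HasDerivAt (fun t => toL (lev Z b n) (g t)) (toL (lev Z b n) (g' t)) t) ∧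
        Continuous fun t => toL (lev Z b n) (g' t) := by
  choose P hPY hPo using fun N => @exists_proj _ X _ _ b (W (jN N)) (fin N)
  have hYP : ∀ N, ∀ y ∈ W (jN N), P N y = y := by
    intro N y hy
    exact (sub_eq_zero.1 (b.defin _ (hPo N y _ (Submodule.sub_mem _ hy (hPY N y))))).symm
  have horth : ∀ n N x, ∀ y ∈ W (jN N), NB Z b.B n (x - P N x) y = 0 := by
    intro n N x y hy
    obtain ⟨y', hy', h⟩ := NB_repr Z Zs b.B adj W σ hZ hZs n _ y hy
    rw [h, hPo N x y' hy']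
  have hsymm : ∀ δ hδ n N x y, (levW Z b δ hδ n).B (P N x) y = (levW Z b δ hδ n).B x (P N y) := by
    intro δ hδ n N x y
    simp only [levW_B, symm_of_orth (NB_symm Z b _) (hPY N) (horth _ N) x y]
  have hspec' : ∀ (N n : ℕ) x, (∀ y ∈ W (jN N), b.B x y = 0) →
      ((N : ℝ) + 1) * lq Z (fun x => b.B x x) n x ≤ lq Z (fun x => b.B x x) (n + 1) x := by
    intro N n
    induction n with
    | zero => exact hspec N
    | succ n ih =>
      intro x hx
      rw [lq_succ _ n, lq_succ _ (n + 1), mul_sum]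
      refine sum_le_sum fun z _ => ih _ fun y hy => ?_
      rw [adj, hx _ (hinv z N y hy)]
  let S : Scale X :=
    { q := lev Z b
      Y := fun N => W (jN N)
      fin := fin
      P := P
      PY := hPY
      YP := hYP
      Psymm := hsymm _ _ 0
      approx := fun n => ⟨fun N => √(1 / ((N : ℝ) + 1)), by
          simpa using (tendsto_one_div_add_atTop_nhds_zero_nat (𝕜 := ℝ)).sqrt, fun N x => by
        have hN : (0 : ℝ) < (N : ℝ) + 1 := by positivity
        have h1 : (lev Z b n).nr (x - P N x) ≤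
            √(1 / ((N : ℝ) + 1)) * (lev Z b (n + 1)).nr (x - P N x) := by
          refine lev_nr_le (by positivity) ?_
          rw [one_div, le_inv_mul_iff₀ hN, ← sum_sq_eq _ (n + 1)]
          have h2 : ((N : ℝ) + 1) * sq Z (fun x => b.B x x) (n + 1) (x - P N x) ≤
              ∑ z, sq Z (fun x => b.B x x) (n + 1) (Z z (x - P N x)) := by
            simp only [sq]
            rw [sum_comm, mul_sum]
            exact sum_le_sum fun j _ => hspec' N j _ (hPo N x)
          linarith [b.nonneg (x - P N x)]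
        refine h1.trans (mul_le_mul_of_nonneg_left ?_ (Real.sqrt_nonneg _))
        refine (lev Z b (n + 1)).nr_proj_le (LinearMap.id - P N) (fun x => ?_) (fun x y => ?_) x
        · simp [hYP N _ (hPY N x)]
        · simp only [LinearMap.sub_apply, LinearMap.id_apply, map_sub]
          rw [show (lev Z b (n + 1)).B (P N x) y = (lev Z b (n + 1)).B x (P N y) from
            hsymm _ _ _ N x y]⟩
      compl := hcompl }
  refine galerkin_core S A F a x0 (fun x y => by simpa only [S, lev_zero_B] using hA x y)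
    (fun y => by simpa only [S, lev_zero_B] using hF y) (fun a' n => ?_) hFb (fun a' n => ?_)
  · choose m C hC h using fun j => bdd_all had (hb a') j A hA𝒞
    have hS : 0 ≤ ∑ j ∈ range (n + 1), C j := sum_nonneg fun j _ => hC j
    refine ⟨∑ j ∈ range (n + 1), m j, √(∑ j ∈ range (n + 1), C j), Real.sqrt_nonneg _,
      fun s hs x => lev_nr_le hS ?_⟩
    rw [sum_mul]
    refine sum_le_sum fun j hj => (h j s hs x).trans (mul_le_mul_of_nonneg_left ?_ (hC j))
    exact sq_mono b.nonneg ((single_le_sum (f := m) (fun _ _ => Nat.zero_le _) hj).trans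
      (Nat.le_succ _)) x
  · obtain ⟨κ0, C0, hκ0, h1⟩ := h0 a'
    obtain ⟨δ, hδ, κ1, C, hκ1, hC, h2⟩ := energy_all hd had (ht a') hA𝒞 hκ0 h1 n
    obtain ⟨j0, -, hj0⟩ := exists_min_image (range (n + 1)) δ ⟨0, by simp⟩
    have hc := (hδ j0).1
    set Q := levW Z b δ (fun j => (hδ j).1) n with hQ
    have hlow : ∀ x, δ j0 * (lev Z b n).nr x ^ 2 ≤ Q.nr x ^ 2 := by
      intro x
      rw [PD.nr_sq, PD.nr_sq, levW_B, lev_B, mul_sum]
      refine sum_le_sum fun j hj => mul_le_mul_of_nonneg_right (hj0 j hj) ?_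
      rw [NB_self]; exact lq_nonneg b.nonneg _ _
    refine ⟨Q, √(δ j0), C / δ j0, n, Real.sqrt_pos.2 hc, by positivity, fun x => ?_, fun x => ?_,
      hsymm _ _ n, fun s hs x => ?_⟩
    · refine le_of_sq_le_sq ?_ (Q.nr_nonneg x)
      rw [mul_pow, Real.sq_sqrt hc.le]
      exact hlow x
    · refine le_of_sq_le_sq ?_ (PD.nr_nonneg _ x)
      change _ ≤ (lev Z b n).nr x ^ 2
      rw [PD.nr_sq, PD.nr_sq, levW_B, lev_B]
      refine sum_le_sum fun j hj => mul_le_of_le_one_left ?_ (hδ j).2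
      rw [NB_self]; exact lq_nonneg b.nonneg _ _
    · have h3 := h2 s hs x
      rw [← lev_nr_sq] at h3
      rw [levW_B]
      have h4 := mul_nonneg hκ1.le (sq_nonneg' (Z := Z) hd (n + 1) x)
      have h5 := mul_le_mul_of_nonneg_left (hlow x) (div_nonneg hC hc.le)
      rw [← mul_assoc, div_mul_cancel₀ _ hc.ne'] at h5
      linarith

end Pool.Agent.BoltzD.Solver

end
end MrgPart1

-- ======== part 2: formerly Pool.Agent.BoltzD.Calc.XSob
section MrgPart2

/-! Sobolev inequalities in the space variable for maps with values in a space with a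
positive semidefinite form. -/

set_option autoImplicit false
set_option linter.unusedSectionVars false

open Filter Topology MeasureTheory Pool.Agent.BoltzC

noncomputable section

namespace Pool.Agent.BoltzD

variable [Dim]

variable {F : Type*} [AddCommGroup F] [Module ℝ F] [TopologicalSpace F]
  [IsTopologicalAddGroup F] [ContinuousSMul ℝ F] [T2Space F]

lemma abs_two_bilin_le (B : F →ₗ[ℝ] F →ₗ[ℝ] ℝ) (hs : ∀ a b, B a b = B b a)
    (hp : ∀ a, 0 ≤ B a a) {L : ℝ} (hL : 0 < L) (a b : F) :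
    |B b a + B a b| ≤ B a a / L + L * B b b := by
  have h1 := hp (a + L • b)
  have h2 := hp (a - L • b)
  simp only [map_add, map_sub, map_smul, LinearMap.add_apply, LinearMap.sub_apply,
    LinearMap.smul_apply, smul_eq_mul] at h1 h2
  have e : B a a / L + L * B b b = (B a a + L * (L * B b b)) / L := by field_simp
  rw [e, le_div_iff₀ hL, hs b a] at *
  rcases abs_cases (B a b + B a b) with h | h <;> rw [h.1] <;> nlinarith

lemma term_le_sum {I : List Ix → ℝ} (hI : ∀ u, 0 ≤ I u) {L : ℝ} (hL : 0 < L) {n : ℕ} (u : List Ix)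
    (hu : u.length ≤ n) : L ^ (2 * u.length) * I u ≤
      ∑ j ∈ Finset.range (n + 1), L ^ (2 * j) * ∑ u ∈ words j, I u :=
  (mul_le_mul_of_nonneg_left (Finset.single_le_sum (f := I) (fun u _ => hI u) (mem_words.2 rfl))
    (by positivity)).trans (Finset.single_le_sum
      (f := fun j => L ^ (2 * j) * ∑ u ∈ words j, I u)
      (fun _ _ => mul_nonneg (by positivity) (Finset.sum_nonneg fun u _ => hI u))
      (Finset.mem_range.2 (Nat.lt_succ_of_le hu)))

/-- Local scale-invariant Sobolev inequality on the cube with corner `x` and side `L`. -/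
theorem sobolev_cube (B : F →ₗ[ℝ] F →ₗ[ℝ] ℝ) (hB : Continuous fun p : F × F => B p.1 p.2)
    (hs : ∀ a b, B a b = B b a) (hp : ∀ a, 0 ≤ B a a) {G : E3 → F} (hG : Sm G) {L : ℝ}
    (hL : 0 < L) (x : E3) :
    B (G x) (G x) ≤ 3 ^ dd * ∑ j ∈ Finset.range (dd + 1), L ^ (2 * j) / L ^ dd *
      ∑ u ∈ words j, ∫ y in cube x L, B (dXw u G y) (dXw u G y) := by
  have key := sobolev_cube_scalar (q := fun u y => B (dXw u G y) (dXw u G y))
    (r := fun u i y => B (dX i (dXw u G) y) (dXw u G y) + B (dXw u G y) (dX i (dXw u G) y)) hL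
    (fun u => (Sm.bilin B hB (hG.dXw u) (hG.dXw u)).cont)
    (fun u i y => by
      simpa using (HD.bilin B hB ((hG.dXw u).dif i y) ((hG.dXw u).dif i y)).hasDerivAt)
    (fun u i y => by
      rw [dXw_concat]
      exact abs_two_bilin_le B hs hp hL _ _) x
    (term_le_sum (I := fun u => ∫ y in cube x L, B (dXw u G y) (dXw u G y))
      (fun u => integral_nonneg fun y => hp _) hL)
  refine key.trans (le_of_eq ?_)
  rw [mul_div_assoc, Finset.sum_div]
  congr 1
  exact Finset.sum_congr rfl fun j _ => by ring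

/-- Sobolev inequality on the torus. -/
theorem sobolev_torus (B : F →ₗ[ℝ] F →ₗ[ℝ] ℝ) (hB : Continuous fun p : F × F => B p.1 p.2)
    (hs : ∀ a b, B a b = B b a) (hp : ∀ a, 0 ≤ B a a) {G : E3 → F} (hG : Sm G) (pG : Per G)
    (x : E3) :
    B (G x) (G x) ≤ 3 ^ dd * ∑ j ∈ Finset.range (dd + 1),
      ∑ u ∈ words j, tint fun y => B (dXw u G y) (dXw u G y) := by
  have := sobolev_cube B hB hs hp hG one_pos x
  simp only [one_pow, div_one, one_mul] at this
  refine this.trans (le_of_eq ?_)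
  congr 1
  refine Finset.sum_congr rfl fun j _ => Finset.sum_congr rfl fun u _ => ?_
  exact integral_cube_eq_tint ((pG.dXw u).map fun a => B a a)
    (Sm.bilin B hB (hG.dXw u) (hG.dXw u)).cont x

/-- Weighted local Sobolev inequality: the weight `w j` (for `j` derivatives) is at least
`w₀ L^(2j-d)` on the cube with corner `x` and side `L ≤ 1`. -/
theorem sobolev_weighted (B : F →ₗ[ℝ] F →ₗ[ℝ] ℝ) (hB : Continuous fun p : F × F => B p.1 p.2)
    (hs : ∀ a b, B a b = B b a) (hp : ∀ a, 0 ≤ B a a) {G : E3 → F} (hG : Sm G) (pG : Per G)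
    {w : ℕ → E3 → ℝ} (hwp : ∀ j, Per (w j)) (hwc : ∀ j, Continuous (w j))
    (hw0 : ∀ j y, 0 ≤ w j y) {L w₀ : ℝ} (hL : 0 < L) (hL1 : L ≤ 1) (h0 : 0 ≤ w₀) (x : E3)
    (hw : ∀ j < dd + 1, ∀ y ∈ cube x L, w₀ * (L ^ (2 * j) / L ^ dd) ≤ w j y) :
    w₀ * B (G x) (G x) ≤ 3 ^ dd * ∑ j ∈ Finset.range (dd + 1),
      ∑ u ∈ words j, tint fun y => w j y * B (dXw u G y) (dXw u G y) := by
  refine (mul_le_mul_of_nonneg_left (sobolev_cube B hB hs hp hG hL x) h0).trans ?_
  rw [mul_left_comm, Finset.mul_sum]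
  gcongr with j hj
  rw [← mul_assoc, Finset.mul_sum]
  gcongr with u hu
  exact mul_integral_cube_le_tint ((pG.dXw u).map fun a => B a a)
    (Sm.bilin B hB (hG.dXw u) (hG.dXw u)).cont (fun y => hp _) (hwp j) (hwc j) (hw0 j) x hL1
    (hw j (Finset.mem_range.1 hj))

/-- The bilinear form of `nA`. -/
def nB (m : ℕ) : SV →ₗ[ℝ] SV →ₗ[ℝ] ℝ := ip.compl₂ (RR m : SV →ₗ[ℝ] SV)

lemma nB_apply (m : ℕ) (f g : SV) : nB m f g = ip f (RR m g) := rfl

lemma nB_eq_sum (m : ℕ) (f g : SV) : nB m f g = ∑ w ∈ words m, ip (apW w f) (apW w g) :=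
  ip_RR m f g

lemma nB_self (m : ℕ) (f : SV) : nB m f f = nA m f := (nA_eq_ip_RR m f).symm

lemma nB_comm (m : ℕ) (f g : SV) : nB m f g = nB m g f := by
  rw [nB_apply, nB_apply, ← ip_RR_symm, ip_comm]

lemma continuous_nB (m : ℕ) : Continuous fun p : SV × SV => nB m p.1 p.2 :=
  continuous_ip.comp (continuous_fst.prodMk ((RR m).continuous.comp continuous_snd))

theorem nA_le_cube (m : ℕ) {G : E3 → SV} (hG : Sm G) {L : ℝ} (hL : 0 < L) (x : E3) :
    nA m (G x) ≤ 3 ^ dd * ∑ j ∈ Finset.range (dd + 1), L ^ (2 * j) / L ^ dd *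
      ∑ u ∈ words j, ∫ y in cube x L, nA m (dXw u G y) := by
  simpa only [nB_self] using sobolev_cube (nB m) (continuous_nB m) (nB_comm m)
    (fun a => by rw [nB_self]; exact nA_nonneg _ _) hG hL x

theorem nA_le_torus (m : ℕ) {G : E3 → SV} (hG : Sm G) (pG : Per G) (x : E3) :
    nA m (G x) ≤ 3 ^ dd * ∑ j ∈ Finset.range (dd + 1),
      ∑ u ∈ words j, tint fun y => nA m (dXw u G y) := by
  simpa only [nB_self] using sobolev_torus (nB m) (continuous_nB m) (nB_comm m)
    (fun a => by rw [nB_self]; exact nA_nonneg _ _) hG pG x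

theorem nA_le_weighted (m : ℕ) {G : E3 → SV} (hG : Sm G) (pG : Per G)
    {w : ℕ → E3 → ℝ} (hwp : ∀ j, Per (w j)) (hwc : ∀ j, Continuous (w j))
    (hw0 : ∀ j y, 0 ≤ w j y) {L w₀ : ℝ} (hL : 0 < L) (hL1 : L ≤ 1) (h0 : 0 ≤ w₀) (x : E3)
    (hw : ∀ j < dd + 1, ∀ y ∈ cube x L, w₀ * (L ^ (2 * j) / L ^ dd) ≤ w j y) :
    w₀ * nA m (G x) ≤ 3 ^ dd * ∑ j ∈ Finset.range (dd + 1),
      ∑ u ∈ words j, tint fun y => w j y * nA m (dXw u G y) := by
  simpa only [nB_self] using sobolev_weighted (nB m) (continuous_nB m) (nB_comm m)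
    (fun a => by rw [nB_self]; exact nA_nonneg _ _) hG pG hwp hwc hw0 hL hL1 h0 x hw

theorem sq_le_cube {φ : E3 → ℝ} (hφ : Sm φ) {L : ℝ} (hL : 0 < L) (x : E3) :
    φ x ^ 2 ≤ 3 ^ dd * ∑ j ∈ Finset.range (dd + 1), L ^ (2 * j) / L ^ dd *
      ∑ u ∈ words j, ∫ y in cube x L, dXw u φ y ^ 2 := by
  simpa only [sq, LinearMap.mul_apply'] using sobolev_cube (LinearMap.mul ℝ ℝ) continuous_mul
    mul_comm mul_self_nonneg hφ hL x

theorem sq_le_torus {φ : E3 → ℝ} (hφ : Sm φ) (pφ : Per φ) (x : E3) :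
    φ x ^ 2 ≤ 3 ^ dd * ∑ j ∈ Finset.range (dd + 1),
      ∑ u ∈ words j, tint fun y => dXw u φ y ^ 2 := by
  simpa only [sq, LinearMap.mul_apply'] using sobolev_torus (LinearMap.mul ℝ ℝ) continuous_mul
    mul_comm mul_self_nonneg hφ pφ x

variable {T : Type*} [TopologicalSpace T]

lemma _root_.Pool.Agent.BoltzC.SmC.ip {g h : T → E3 → SV} (hg : SmC g) (hh : SmC h) :
    SmC fun s x => ip (g s x) (h s x) := SmC.bilin _ continuous_ip hg hh

lemma _root_.Pool.Agent.BoltzC.Sm.ip {G H : E3 → SV} (hG : Sm G) (hH : Sm H) :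
    Sm fun x => ip (G x) (H x) := Sm.bilin _ continuous_ip hG hH

lemma _root_.Pool.Agent.BoltzC.SmD.ip {g g' h h' : ℝ → E3 → SV} (hg : SmD g g') (hh : SmD h h') :
    SmD (fun s x => ip (g s x) (h s x)) fun s x => ip (g' s x) (h s x) + ip (g s x) (h' s x) :=
  SmD.bilin _ continuous_ip hg hh

lemma _root_.Pool.Agent.BoltzC.SmC.nA {g : T → E3 → SV} (hg : SmC g) (m : ℕ) :
    SmC fun s x => nA m (g s x) := by
  simpa only [nB_self] using SmC.bilin _ (continuous_nB m) hg hg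

lemma _root_.Pool.Agent.BoltzC.Sm.nA {G : E3 → SV} (hG : Sm G) (m : ℕ) :
    Sm fun x => nA m (G x) := SmC.nA hG m

lemma _root_.Pool.Agent.BoltzC.SmD.nA {g g' : ℝ → E3 → SV} (hg : SmD g g') (m : ℕ) :
    SmD (fun s x => nA m (g s x)) fun s x => 2 * nB m (g' s x) (g s x) := by
  refine ((SmD.bilin _ (continuous_nB m) hg hg).congr fun s x => nB_self _ _).congr_deriv
    fun s x => ?_
  rw [nB_comm m (g s x)]
  ring

/-- Locally uniform bounds in the norms `nA`. -/
lemma exists_bound_nA {g : T → E3 → SV} (hg : Continuous fun p : T × E3 => g p.1 p.2)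
    (hp : ∀ s, Per (g s)) (m : ℕ) {K : Set T} (hK : IsCompact K) :
    ∃ C, 0 < C ∧ ∀ s ∈ K, ∀ x, nA m (g s x) ≤ C := by
  obtain ⟨C, h0, h⟩ := exists_bound_of_per (ψ := fun s x => nA m (g s x))
    ((continuous_nA m).comp hg) (fun s => (hp s).map _) hK
  exact ⟨C, h0, fun s hs x => (le_abs_self _).trans (h s hs x)⟩

end Pool.Agent.BoltzD

end
end MrgPart2

-- ======== part 3: formerly Pool.Agent.BoltzD.Solver.Space
section MrgPart3

/-!
The space of smooth periodic Schwartz valued functions, its letters and norms; Sobolev bound,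
completeness, and the passage from curves in the scale to smooth families.
-/

set_option autoImplicit false

open Set Filter Topology Finset Pool.Agent.BoltzC

noncomputable section

namespace Pool.Agent.BoltzD.Solver

variable [Dim]

/-- Smooth periodic functions with values in Schwartz space. -/
def XS : Submodule ℝ (E3 → SV) where
  carrier := {G | Sm G ∧ Per G}
  add_mem' hG hH := ⟨hG.1.add hH.1, hG.2.map₂ hH.2 (· + ·)⟩
  zero_mem' := ⟨Sm.const 0, Per.const 0⟩
  smul_mem' c _ hG := ⟨hG.1.const_smul c, hG.2.map (c • ·)⟩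

lemma XS.sm (G : XS) : Sm G.1 := G.2.1

lemma XS.per (G : XS) : Per G.1 := G.2.2

lemma XS.cont_ip (G H : XS) : Continuous fun x => ip (G.1 x) (H.1 x) :=
  ((XS.sm G).ip (XS.sm H)).cont

/-- The `L²` form. -/
def bX : PD XS where
  B := LinearMap.mk₂ ℝ (fun G H => tint fun x => ip (G.1 x) (H.1 x))
    (fun G₁ G₂ H => by
      rw [← tint_add (XS.cont_ip G₁ H) (XS.cont_ip G₂ H)]; exact tint_congr fun x => by simp)
    (fun c G H => by
      rw [smul_eq_mul, ← tint_const_mul]; exact tint_congr fun x => by simp)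
    (fun G H₁ H₂ => by
      rw [← tint_add (XS.cont_ip G H₁) (XS.cont_ip G H₂)]; exact tint_congr fun x => by simp)
    (fun c G H => by
      rw [smul_eq_mul, ← tint_const_mul]; exact tint_congr fun x => by simp)
  symm G H := tint_congr fun x => ip_comm _ _
  nonneg G := tint_nonneg fun x => ip_self_nonneg _
  defin G h := Subtype.ext (funext fun x => ip_self_eq_zero
    (eq_zero_of_tint_eq_zero ((XS.per G).map fun f => ip f f) (XS.cont_ip G G)
      (fun _ => ip_self_nonneg _) h x))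

lemma bX_B (G H : XS) : bX.B G H = tint fun x => ip (G.1 x) (H.1 x) := rfl

/-- An operator in the velocity variable acting on functions. -/
def opV (B : SV →L[ℝ] SV) : XS →ₗ[ℝ] XS where
  toFun G := ⟨fun x => B (G.1 x), (XS.sm G).clm B, (XS.per G).map B⟩
  map_add' G H := Subtype.ext (funext fun x => by simp)
  map_smul' c G := Subtype.ext (funext fun x => by simp)

@[simp] lemma opV_apply (B : SV →L[ℝ] SV) (G : XS) (x : E3) : (opV B G).1 x = B (G.1 x) := rfl

/-- Derivative in `x`. -/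
def opD (i : Ix) : XS →ₗ[ℝ] XS where
  toFun G := ⟨dX i G.1, (XS.sm G).dX i, (XS.per G).dX i⟩
  map_add' G H := Subtype.ext (dX_add (XS.sm G).dif (XS.sm H).dif i)
  map_smul' c G := Subtype.ext (dX_const_smul (XS.sm G).dif c i)

@[simp] lemma opD_apply (i : Ix) (G : XS) : (opD i G).1 = dX i G.1 := rfl

/-- The letters. -/
def ZX : Ix ⊕ Ix → XS →ₗ[ℝ] XS
  | Sum.inl i => opD i
  | Sum.inr j => opV (ap j)

/-- Their adjoints. -/
def ZsX : Ix ⊕ Ix → XS →ₗ[ℝ] XS
  | Sum.inl i => -opD i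
  | Sum.inr j => opV (am j)

/-- A letter or nothing. -/
def ZoX : Option (Ix ⊕ Ix) → XS →ₗ[ℝ] XS
  | none => LinearMap.id
  | some z => ZX z

lemma ZoX_val (z : Option (Ix ⊕ Ix)) (G : XS) : (ZoX z G).1 = Zo z G.1 := by
  rcases z with _ | i | j <;> rfl

lemma adjX (z : Ix ⊕ Ix) (G H : XS) : bX.B (ZX z G) H = bX.B G (ZsX z H) := by
  rcases z with i | j
  · simp only [ZX, ZsX, LinearMap.neg_apply, map_neg, bX_B]
    exact tint_bilin_dX ip continuous_ip (XS.sm G) (XS.sm H) (XS.per G) (XS.per H) i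
  · exact tint_congr fun x => ip_ap j _ _

lemma opD_opV (i : Ix) (B : SV →L[ℝ] SV) (G : XS) : opD i (opV B G) = opV B (opD i G) :=
  Subtype.ext (dX_clm (XS.sm G).dif B i)

lemma ZX_comm (z z' : Ix ⊕ Ix) (G : XS) : ZX z (ZX z' G) = ZX z' (ZX z G) := by
  rcases z with i | j <;> rcases z' with i' | j'
  · exact Subtype.ext (dX_comm (XS.sm G) i i')
  · exact opD_opV _ _ _
  · exact (opD_opV _ _ _).symm
  · exact Subtype.ext (funext fun x => ap_comm _ _ _)

lemma ZoX_comm (z : Option (Ix ⊕ Ix)) (z' : Ix ⊕ Ix) (G : XS) :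
    ZoX z (ZX z' G) = ZX z' (ZoX z G) := by
  rcases z with _ | z
  · rfl
  · exact ZX_comm _ _ _

/-- The squared `L²` norm. -/
abbrev nX : XS → ℝ := fun G => bX.B G G

lemma tint_nA_le (m : ℕ) (G : XS) : tint (fun x => nA m (G.1 x)) ≤ lq ZX nX m G := by
  induction m generalizing G with
  | zero => exact le_of_eq (tint_congr fun x => nA_zero _)
  | succ m ih =>
    rw [lq_succ, Fintype.sum_sum_type]
    have h1 : tint (fun x => nA (m + 1) (G.1 x)) =
        ∑ j, tint fun x => nA m ((ZX (Sum.inr j) G).1 x) := by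
      rw [← tint_sum _ fun j _ => ((XS.sm (ZX (Sum.inr j) G)).nA m).cont]
      exact tint_congr fun x => nA_succ m _
    have h2 : 0 ≤ ∑ i, lq ZX nX m (ZX (Sum.inl i) G) :=
      sum_nonneg fun _ _ => lq_nonneg bX.nonneg _ _
    rw [h1]
    linarith [sum_le_sum fun j (_ : j ∈ Finset.univ) => ih (ZX (Sum.inr j) G)]

/-- Derivative along a word. -/
def DW : List Ix → XS →ₗ[ℝ] XS
  | [] => LinearMap.id
  | i :: u => (DW u).comp (opD i)

@[simp] lemma DW_val (u : List Ix) (G : XS) : (DW u G).1 = dXw u G.1 := by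
  induction u generalizing G with
  | nil => rfl
  | cons i u ih => exact ih (opD i G)

lemma sq_DW_le (u : List Ix) (n : ℕ) (G : XS) :
    sq ZX nX n (DW u G) ≤ sq ZX nX (n + u.length) G := by
  induction u generalizing G with
  | nil => exact le_rfl
  | cons i u ih => exact (ih (opD i G)).trans (sq_Z_le bX.nonneg _ (Sum.inl i) G)

/-- The Sobolev constant. -/
def KS : ℝ := 3 ^ dd * ∑ j ∈ range (dd + 1), ((words j).card : ℝ)

lemma KS_nonneg : 0 ≤ KS := by unfold KS; positivity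

lemma nA_le_sq (m : ℕ) (G : XS) (x : E3) : nA m (G.1 x) ≤ KS * sq ZX nX (m + dd + 1) G := by
  refine (nA_le_torus m (XS.sm G) (XS.per G) x).trans ?_
  rw [KS, mul_assoc, sum_mul]
  refine mul_le_mul_of_nonneg_left (sum_le_sum fun j hj => ?_) (by positivity)
  rw [← nsmul_eq_mul]
  refine sum_le_card_nsmul _ _ _ fun u hu => ?_
  have h1 := tint_nA_le m (DW u G)
  rw [DW_val] at h1
  refine h1.trans ((lq_le_sq bX.nonneg _ _).trans ((sq_DW_le u _ G).trans
    (sq_mono bX.nonneg ?_ G)))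
  have := mem_words.1 hu
  have := Finset.mem_range.1 hj
  omega

/-- The forms on Schwartz space. -/
def qA (m : ℕ) : PD SV where
  B := nB m
  symm := nB_comm m
  nonneg f := by rw [nB_self]; exact nA_nonneg m f
  defin f h := by
    rw [nB_self] at h
    have := nA_mono (Nat.zero_le m) f
    rw [h, nA_zero] at this
    exact ip_self_eq_zero (le_antisymm this (ip_self_nonneg f))

lemma qA_nr (m : ℕ) (f : SV) : (qA m).nr f = √(nA m f) := by
  rw [PD.nr_eq_sqrt]; exact congrArg _ (nB_self m f)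

lemma tendsto_iff_qA {α : Type*} {l : Filter α} {f : α → SV} {g : SV} :
    Tendsto f l (𝓝 g) ↔ ∀ m, Tendsto (fun i => toL (qA m) (f i)) l (𝓝 (toL (qA m) g)) := by
  rw [tendsto_SV_iff]
  refine forall_congr' fun m => ?_
  rw [tendsto_iff_norm_sub_tendsto_zero (E := Lvl (qA m))]
  have e : ∀ i, ‖toL (qA m) (f i) - toL (qA m) g‖ = √(nA m (f i - g)) := fun i => by
    rw [← map_sub, ← qA_nr]; rfl
  simp only [e]
  constructor
  · intro h; simpa using h.sqrt
  · intro h
    simpa [Real.sq_sqrt (nA_nonneg _ _)] using h.pow 2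

lemma continuous_iff_qA {T : Type*} [TopologicalSpace T] {f : T → SV} :
    Continuous f ↔ ∀ m, Continuous fun t => toL (qA m) (f t) := by
  simp only [continuous_iff_continuousAt, ContinuousAt]
  exact ⟨fun h m t => tendsto_iff_qA.1 (h t) m, fun h t => tendsto_iff_qA.2 fun m => h m t⟩

lemma hd_iff_qA {γ : ℝ → SV} {a : SV} {t : ℝ} :
    HD γ a t ↔ ∀ m, HasDerivAt (fun s => toL (qA m) (γ s)) (toL (qA m) a) t := by
  simp only [← hd_iff_hasDerivAt, HD, ← map_sub, ← map_smul]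
  exact tendsto_iff_qA

lemma qA_nr_le (m : ℕ) (u : List Ix) (G : XS) (x : E3) :
    (qA m).nr (dXw u G.1 x) ≤ √KS * (lev ZX bX (m + dd + u.length)).nr G := by
  rw [qA_nr]
  refine Real.sqrt_le_iff.2 ⟨mul_nonneg (Real.sqrt_nonneg _) (PD.nr_nonneg _ _), ?_⟩
  rw [mul_pow, Real.sq_sqrt KS_nonneg, lev_nr_sq, ← DW_val]
  refine (nA_le_sq m _ x).trans (mul_le_mul_of_nonneg_left ((sq_DW_le u _ G).trans
    (le_of_eq ?_)) KS_nonneg)
  congr 1; omega

/-- Evaluation of a derivative at a point, as a linear map. -/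
def evX (u : List Ix) (x : E3) : XS →ₗ[ℝ] SV :=
  (LinearMap.proj x).comp (XS.subtype.comp (DW u))

lemma evX_apply (u : List Ix) (x : E3) (G : XS) : evX u x G = dXw u G.1 x := by
  rw [← DW_val]; rfl

/-- Evaluation as a continuous map between levels. -/
def evL (m : ℕ) (u : List Ix) (x : E3) :
    Lvl (lev ZX bX (m + dd + u.length)) →L[ℝ] Lvl (qA m) :=
  ((toL (qA m)).comp ((evX u x).comp (ofL _))).mkContinuous √KS fun G => by
    have := qA_nr_le m u (ofL _ G) x
    rw [← evX_apply] at this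
    exact this

lemma evL_apply (m : ℕ) (u : List Ix) (x : E3) (G : XS) :
    evL m u x (toL _ G) = toL (qA m) (dXw u G.1 x) := by
  rw [← evX_apply]; rfl

theorem smC_of_lev {T : Type*} [TopologicalSpace T] {g : T → XS}
    (hg : ∀ n, Continuous fun t => toL (lev ZX bX n) (g t)) : SmC fun t => (g t).1 := by
  intro u
  refine ⟨continuous_iff_qA.2 fun m => continuous_iff_continuousAt.2 fun p => ?_,
    fun s => ((XS.sm (g s)).dXw u).dif⟩
  rw [ContinuousAt, tendsto_iff_norm_sub_tendsto_zero]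
  have h1 : Tendsto (fun q : T × E3 => √KS * ‖toL (lev ZX bX (m + dd + u.length)) (g q.1) -
      toL (lev ZX bX (m + dd + u.length)) (g p.1)‖) (𝓝 p) (𝓝 0) := by
    have := tendsto_iff_norm_sub_tendsto_zero.1
      (((hg (m + dd + u.length)).comp continuous_fst).tendsto p)
    simpa using this.const_mul √KS
  have h2 : Tendsto (fun q : T × E3 => ‖toL (qA m) (dXw u (g p.1).1 q.2) -
      toL (qA m) (dXw u (g p.1).1 p.2)‖) (𝓝 p) (𝓝 0) :=
    tendsto_iff_norm_sub_tendsto_zero.1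
      (((continuous_iff_qA.1 ((XS.sm (g p.1)).dXw u).cont m).comp continuous_snd).tendsto p)
  have h3 := h1.add h2
  rw [add_zero] at h3
  refine squeeze_zero (fun _ => norm_nonneg _) (fun q => ?_) h3
  refine (norm_sub_le_norm_sub_add_norm_sub _ (toL (qA m) (dXw u (g p.1).1 q.2)) _).trans
    (add_le_add ?_ le_rfl)
  rw [← map_sub, ← map_sub, ← evX_apply, ← evX_apply, ← map_sub, evX_apply]
  exact qA_nr_le m u _ _

theorem smD_of_lev {g g' : ℝ → XS}
    (h : ∀ n, (∀ t, HasDerivAt (fun t => toL (lev ZX bX n) (g t)) (toL (lev ZX bX n) (g' t)) t) ∧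
      Continuous fun t => toL (lev ZX bX n) (g' t)) :
    SmD (fun t => (g t).1) fun t => (g' t).1 := by
  refine ⟨smC_of_lev fun n => continuous_iff_continuousAt.2 fun t => ((h n).1 t).continuousAt,
    smC_of_lev fun n => (h n).2, fun s x => hd_iff_qA.2 fun m => ?_⟩
  exact (evL m [] x).hasFDerivAt.comp_hasDerivAt s ((h _).1 s)

lemma tendsto_lq_of_unif (j : ℕ) : ∀ H : ℕ → XS,
    (∀ u m, ∃ η : ℕ → ℝ, Tendsto η atTop (𝓝 0) ∧ ∀ N y, (qA m).nr (dXw u (H N).1 y) ≤ η N) →
    Tendsto (fun N => lq ZX nX j (H N)) atTop (𝓝 0) := by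
  induction j with
  | zero =>
    intro H hH
    obtain ⟨η, hη, h⟩ := hH [] 0
    refine squeeze_zero (fun N => bX.nonneg _) (fun N => ?_) (by simpa using hη.pow 2)
    refine (le_abs_self _).trans (abs_tint_le_const fun y => ?_)
    rw [abs_of_nonneg (ip_self_nonneg _), ← nA_zero, ← nB_self]
    change (qA 0).B _ _ ≤ _
    rw [← PD.nr_sq]
    exact pow_le_pow_left₀ (PD.nr_nonneg _ _) (h N y) 2
  | succ j ih =>
    intro H hH
    simp only [lq_succ]
    have h := tendsto_finsetSum (Finset.univ : Finset (Ix ⊕ Ix))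
      (f := fun z N => lq ZX nX j (ZX z (H N))) (a := fun _ => 0) (x := atTop) fun z _ => by
        refine ih _ fun u m => ?_
        rcases z with i | i
        · exact hH (i :: u) m
        · obtain ⟨η, hη, h⟩ := hH u (m + 1)
          refine ⟨η, hη, fun N y => le_trans ?_ (h N y)⟩
          have e : dXw u (ZX (Sum.inr i) (H N)).1 y = ap i (dXw u (H N).1 y) :=
            congrFun (dXw_clm (XS.sm (H N)) (ap i) u) y
          rw [e, qA_nr, qA_nr]
          exact Real.sqrt_le_sqrt (nA_ap_le m i _)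
    simpa using h

theorem XS_complete (x : ℕ → XS) (hx : ∀ n, ∃ η : ℕ → ℝ, Tendsto η atTop (𝓝 0) ∧
    ∀ N M, (lev ZX bX n).nr (x N - x M) ≤ η N + η M) :
    ∃ y, ∀ n, Tendsto (fun N => (lev ZX bX n).nr (x N - y)) atTop (𝓝 0) := by
  have hc : ∀ u m, ∃ η : ℕ → ℝ, Tendsto η atTop (𝓝 0) ∧ ∀ N M y,
      (qA m).nr (dXw u (x N).1 y - dXw u (x M).1 y) ≤ η N + η M := by
    intro u m
    obtain ⟨η, hη, h⟩ := hx (m + dd + u.length)
    refine ⟨fun N => √KS * η N, by simpa using hη.const_mul √KS, fun N M y => ?_⟩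
    rw [← evX_apply, ← evX_apply, ← map_sub, evX_apply, ← mul_add]
    exact (qA_nr_le m u _ y).trans (mul_le_mul_of_nonneg_left (h N M) (Real.sqrt_nonneg _))
  have hl : ∀ u y, ∃ f, Tendsto (fun N => dXw u (x N).1 y) atTop (𝓝 f) := by
    intro u y
    refine exists_limit_of_nA _ fun m ε hε => ?_
    obtain ⟨η, hη, h⟩ := hc u m
    obtain ⟨N, hN⟩ := eventually_atTop.1
      (hη.eventually (gt_mem_nhds (show 0 < √ε / 2 by positivity)))
    refine ⟨N, fun a ha b hb => ?_⟩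
    have h1 := h a b y
    rw [qA_nr] at h1
    have h2 : √(nA m (dXw u (x a).1 y - dXw u (x b).1 y)) ≤ √ε := by
      linarith [hN a ha, hN b hb]
    exact (Real.sqrt_le_sqrt_iff hε.le).1 h2
  choose H hH using hl
  have hu : ∀ u m, ∃ η : ℕ → ℝ, Tendsto η atTop (𝓝 0) ∧ ∀ N y,
      (qA m).nr (dXw u (x N).1 y - H u y) ≤ η N := by
    intro u m
    obtain ⟨η, hη, h⟩ := hc u m
    refine ⟨η, hη, fun N y => ?_⟩
    have h1 := tendsto_iff_norm_sub_tendsto_zero.1 (tendsto_iff_qA.1 (hH u y) m)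
    have h2 := (tendsto_const_nhds (x := η N)).add hη |>.add h1
    rw [add_zero, add_zero] at h2
    refine ge_of_tendsto' h2 fun M => ?_
    rw [← map_sub]
    exact ((qA m).nr_triangle _ (dXw u (x M).1 y) _).trans (add_le_add (h N M y) le_rfl)
  have hunif : ∀ u m {α : Type} (r : α → E3), TendstoUniformly
      (fun N t => toL (qA m) (dXw u (x N).1 (r t))) (fun t => toL (qA m) (H u (r t))) atTop := by
    intro u m α r
    obtain ⟨η, hη, h⟩ := hu u m
    rw [Metric.tendstoUniformly_iff]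
    intro ε hε
    filter_upwards [hη.eventually (gt_mem_nhds hε)] with N hN t
    rw [dist_comm, dist_eq_norm, ← map_sub]
    exact (h N _).trans_lt hN
  have hcont : ∀ u, Continuous (H u) := fun u => continuous_iff_qA.2 fun m =>
    (hunif u m id).continuous (Frequently.of_forall fun N =>
      continuous_iff_qA.1 ((XS.sm (x N)).dXw u).cont m)
  have hder : ∀ u i y, HD (fun t : ℝ => H u (y + t • ev i)) (H (u ++ [i]) y) 0 := by
    intro u i y
    refine hd_iff_qA.2 fun m => ?_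
    have h1 := hasDerivAt_of_tendstoUniformly (hunif (u ++ [i]) m fun t : ℝ => y + t • ev i)
      (f := fun N t => toL (qA m) (dXw u (x N).1 (y + t • ev i)))
      (Eventually.of_forall fun N t => by
        rw [dXw_concat]
        exact hd_iff_qA.1 (((XS.sm (x N)).dXw u).dif.line i y t) m)
      (fun t => tendsto_iff_qA.1 (hH u _) m) 0
    simpa using h1
  have hsm : Sm (H []) := smC_coind (fun g : Unit → E3 → SV => ∃ u, g = fun _ => H u)
    (by
      rintro g ⟨u, rfl⟩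
      exact ⟨(hcont u).comp continuous_snd, fun i => ⟨_, ⟨u ++ [i], rfl⟩, fun _ y => hder u i y⟩⟩)
    ⟨[], rfl⟩
  have hper : Per (H []) := fun i y => tendsto_nhds_unique (hH [] _) (by
    simpa only [dXw_nil, XS.per (x _) i y] using hH [] y)
  have hdx : ∀ u w, dXw u (H w) = H (w ++ u) := by
    intro u
    induction u with
    | nil => intro w; simp
    | cons i u ih =>
      intro w
      have e : dX i (H w) = H (w ++ [i]) := funext fun y => dX_eq (hder w i y)
      rw [dXw_cons, e, ih]; simp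
  refine ⟨⟨H [], hsm, hper⟩, fun n => ?_⟩
  have h1 := tendsto_finsetSum (range (n + 1))
    (f := fun j N => lq ZX nX j (x N - ⟨H [], hsm, hper⟩)) (a := fun _ => 0) (x := atTop)
    fun j _ => tendsto_lq_of_unif j _ fun u m => by
      obtain ⟨η, hη, h⟩ := hu u m
      refine ⟨η, hη, fun N y => ?_⟩
      rw [← evX_apply, map_sub, evX_apply, evX_apply, hdx]
      exact h N y
  have h2 := h1.sqrt
  simp only [sum_const_zero, Real.sqrt_zero] at h2
  refine h2.congr fun N => ?_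
  rw [← Real.sqrt_sq ((lev ZX bX n).nr_nonneg _), lev_nr_sq]
  rfl

end Pool.Agent.BoltzD.Solver

end
end MrgPart3

-- ======== part 4: formerly Pool.Agent.BoltzD.Solver.VOps
section MrgPart4

/-!
Classes of operators in the velocity variable that are stable under commutators with the creation
operators: polynomial multipliers, finite rank operators, collision operators.
-/

set_option autoImplicit false

open MeasureTheory Finset Pool.Agent.BoltzC

noncomputable section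

namespace Pool.Agent.BoltzD.Solver

variable [Dim]

/-- Commutator with a creation operator. -/
def adV (j : Ix) (B : SV →L[ℝ] SV) : SV →L[ℝ] SV := (ap j).comp B - B.comp (ap j)

lemma adV_apply (j : Ix) (B : SV →L[ℝ] SV) (f : SV) :
    adV j B f = ap j (B f) - B (ap j f) := rfl

lemma adV_add (j : Ix) (A B : SV →L[ℝ] SV) : adV j (A + B) = adV j A + adV j B := by
  ext1 f; simp only [adV_apply, add_apply, map_add]; abel

lemma adV_smul (j : Ix) (c : ℝ) (A : SV →L[ℝ] SV) : adV j (c • A) = c • adV j A := by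
  ext1 f; simp only [adV_apply, smul_apply, map_smul, smul_sub]

/-- Form bound with a small constant on the dissipation of both arguments. -/
def V0 (d : SV → ℝ) (B : SV →L[ℝ] SV) : Prop :=
  ∀ ε : ℝ, 0 < ε → ∃ C : ℝ, 0 ≤ C ∧ ∀ f h, |ip (B f) h| ≤ ε * (d f + d h) + C * (ip f f + ip h h)

/-- Form bound with a small constant on the dissipation of the second argument. -/
def V1 (d : SV → ℝ) (B : SV →L[ℝ] SV) : Prop :=
  ∀ ε : ℝ, 0 < ε → ∃ C : ℝ, 0 ≤ C ∧ ∀ f h, |ip (B f) h| ≤ ε * d h + C * (d f + ip h h)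

/-- Bound of the quadratic form. -/
def VD (d : SV → ℝ) (B : SV →L[ℝ] SV) : Prop :=
  ∀ ε : ℝ, 0 < ε → ∃ C : ℝ, 0 ≤ C ∧ ∀ h, |ip (B h) h| ≤ ε * d h + C * ip h h

variable {d : SV → ℝ}

lemma V0.add {A B : SV →L[ℝ] SV} (hA : V0 d A) (hB : V0 d B) : V0 d (A + B) := by
  intro ε hε
  obtain ⟨C1, h1, h1'⟩ := hA (ε / 2) (by positivity)
  obtain ⟨C2, h2, h2'⟩ := hB (ε / 2) (by positivity)
  refine ⟨C1 + C2, by positivity, fun f h => ?_⟩
  rw [add_apply, map_add, LinearMap.add_apply]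
  refine (abs_add_le _ _).trans ?_
  linarith [h1' f h, h2' f h]

lemma V0.smul {A : SV →L[ℝ] SV} (hA : V0 d A) (hd : ∀ f, 0 ≤ d f) (c : ℝ) : V0 d (c • A) := by
  intro ε hε
  obtain ⟨C1, h1, h1'⟩ := hA (ε / (|c| + 1)) (by positivity)
  refine ⟨|c| * C1, by positivity, fun f h => ?_⟩
  rw [smul_apply, map_smul, LinearMap.smul_apply, smul_eq_mul, abs_mul]
  have h2 := mul_le_mul_of_nonneg_left (h1' f h) (abs_nonneg c)
  have h3 : |c| * (ε / (|c| + 1)) ≤ ε := by
    rw [mul_div_assoc', div_le_iff₀ (by positivity)]; nlinarith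
  have h4 := mul_le_mul_of_nonneg_right h3 (add_nonneg (hd f) (hd h))
  nlinarith

lemma V0.vd {A : SV →L[ℝ] SV} (hA : V0 d A) : VD d A := by
  intro ε hε
  obtain ⟨C1, h1, h1'⟩ := hA (ε / 2) (by positivity)
  exact ⟨2 * C1, by positivity, fun h => by linarith [h1' h h]⟩

/-! ### Polynomial multipliers -/

/-- Multiplication by a polynomial of degree at most `n`. -/
inductive MulC (n : ℕ) : (SV →L[ℝ] SV) → Prop
  | base (α : List Ix) (h : α.length ≤ n) : MulC n (mulW α)
  | add {A B : SV →L[ℝ] SV} : MulC n A → MulC n B → MulC n (A + B)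
  | smul {A : SV →L[ℝ] SV} (c : ℝ) : MulC n A → MulC n (c • A)

lemma MulC.mono {n m : ℕ} {A : SV →L[ℝ] SV} (h : MulC n A) (hnm : n ≤ m) : MulC m A := by
  induction h with
  | base α hα => exact .base α (hα.trans hnm)
  | add _ _ h1 h2 => exact h1.add h2
  | smul c _ h1 => exact h1.smul c

lemma MulC.comp {n : ℕ} {A : SV →L[ℝ] SV} (h : MulC n A) (i : Ix) :
    MulC (n + 1) ((mulV i).comp A) := by
  induction h with
  | base α hα => exact .base (i :: α) (Nat.succ_le_succ hα)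
  | add _ _ h1 h2 => rw [ContinuousLinearMap.comp_add]; exact h1.add h2
  | smul c _ h1 => rw [ContinuousLinearMap.comp_smul]; exact h1.smul c

lemma mulC_adV_mulW (j : Ix) (α : List Ix) : MulC α.length (adV j (mulW α)) := by
  induction α with
  | nil =>
    have e : adV j (mulW []) = (0 : ℝ) • mulW [] := by ext1 f; simp [adV_apply]
    rw [e]; exact (MulC.base [] le_rfl).smul 0
  | cons i α ih =>
    have e : adV j (mulW (i :: α)) = (mulV i).comp (adV j (mulW α)) +
        (-(if j = i then (1 : ℝ) else 0)) • mulW α := by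
      ext1 f
      simp only [adV_apply, mulW_cons, ap_mulV, add_apply,
        ContinuousLinearMap.comp_apply, smul_apply, map_sub]
      rw [neg_smul]
      abel
    rw [e]
    exact (ih.comp i).add ((MulC.base α (Nat.le_succ _)).smul _)

lemma MulC.adV {n : ℕ} {A : SV →L[ℝ] SV} (h : MulC n A) (j : Ix) : MulC n (adV j A) := by
  induction h with
  | base α hα => exact (mulC_adV_mulW j α).mono hα
  | add _ _ h1 h2 => rw [adV_add]; exact h1.add h2
  | smul c _ h1 => rw [adV_smul]; exact h1.smul c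

lemma mulW_mulV (α : List Ix) (j : Ix) (f : SV) :
    mulW α (mulV j f) = mulV j (mulW α f) := by
  induction α with
  | nil => rfl
  | cons i α ih => rw [mulW_cons, ih, mulV_comm, mulW_cons]

lemma ip_mulW (α : List Ix) (f h : SV) : ip (mulW α f) h = ip f (mulW α h) := by
  induction α generalizing h with
  | nil => rfl
  | cons i α ih => rw [mulW_cons, ip_mulV, ih, mulW_mulV, mulW_cons]

lemma abs_mulW_le (α : List Ix) (f : SV) (v : E) :
    |mulW α f v| ≤ (1 + ‖v‖) ^ α.length * |f v| := by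
  induction α with
  | nil => simp
  | cons i α ih =>
    rw [mulW_cons, mulV_apply, abs_mul, List.length_cons, pow_succ', mul_assoc]
    have h1 : |v i| ≤ 1 + ‖v‖ := by
      have := PiLp.norm_apply_le v i
      rw [Real.norm_eq_abs] at this
      linarith
    gcongr

lemma integrable_wgt (p : ℕ) (f : SV) : Integrable fun v => (1 + ‖v‖) ^ p * f v ^ 2 := by
  obtain ⟨C, -, hC⟩ := weighted_le_nA p
  refine Integrable.mono' (f.integrable.norm.const_mul (C * √(nA (p + dd) f))) ?_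
    (Filter.Eventually.of_forall fun v => ?_)
  · exact (((continuous_const.add continuous_norm).pow p).mul
      (f.continuous.pow 2)).aestronglyMeasurable
  · rw [Real.norm_of_nonneg (by positivity), Real.norm_eq_abs, ← sq_abs, pow_two, ← mul_assoc]
    exact mul_le_mul_of_nonneg_right (hC f v).1 (abs_nonneg _)

lemma cube_le {t ε : ℝ} (ht : 1 ≤ t) (hε : 0 < ε) : t ^ 3 ≤ ε * t ^ 8 + ε⁻¹ ^ 3 := by
  have h0 : 0 < t := by linarith
  rcases le_total t ε⁻¹ with h | h
  · have : t ^ 3 ≤ ε⁻¹ ^ 3 := by gcongr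
    have : 0 ≤ ε * t ^ 8 := by positivity
    linarith
  · have h1 : 1 ≤ ε * t := by
      rwa [inv_le_iff_one_le_mul₀' hε] at h
    have h2 : t ^ 4 ≤ t ^ 8 := pow_le_pow_right₀ ht (by norm_num)
    have h3 : t ^ 3 * 1 ≤ t ^ 3 * (ε * t) := by gcongr
    have h4 : 0 ≤ ε⁻¹ ^ 3 := by positivity
    nlinarith

lemma v0_mulW (hd : ∀ f, 0 ≤ d f)
    (hw : ∃ C : ℝ, ∀ f : SV, ∫ v, (1 + ‖v‖) ^ 8 * f v ^ 2 ≤ C * d f)
    (α : List Ix) (hα : α.length ≤ 3) : V0 d (mulW α) := by
  intro ε hε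
  obtain ⟨C, hC⟩ := hw
  set e := ε / (|C| + 1) with he
  have he0 : 0 < e := by positivity
  refine ⟨e⁻¹ ^ 3, by positivity, fun f h => ?_⟩
  have i1 := integrable_wgt 8 f
  have i2 := integrable_wgt 8 h
  have i3 : Integrable fun v => f v ^ 2 := by simpa using integrable_wgt 0 f
  have i4 : Integrable fun v => h v ^ 2 := by simpa using integrable_wgt 0 h
  have h1 : |ip (mulW α f) h| ≤ ∫ v, (e * ((1 + ‖v‖) ^ 8 * f v ^ 2 + (1 + ‖v‖) ^ 8 * h v ^ 2) +
      e⁻¹ ^ 3 * (f v ^ 2 + h v ^ 2)) := by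
    rw [ip_def, ← Real.norm_eq_abs]
    refine norm_integral_le_of_norm_le (((i1.add i2).const_mul _).add ((i3.add i4).const_mul _))
      (Filter.Eventually.of_forall fun v => ?_)
    have ht : 1 ≤ 1 + ‖v‖ := le_add_of_nonneg_right (norm_nonneg v)
    have h2 : |mulW α f v| ≤ (1 + ‖v‖) ^ 3 * |f v| :=
      (abs_mulW_le α f v).trans (mul_le_mul_of_nonneg_right (pow_le_pow_right₀ ht hα)
        (abs_nonneg _))
    have h3 : |f v| * |h v| ≤ f v ^ 2 + h v ^ 2 := by
      nlinarith [sq_nonneg (|f v| - |h v|), sq_abs (f v), sq_abs (h v),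
        mul_nonneg (abs_nonneg (f v)) (abs_nonneg (h v))]
    rw [Real.norm_eq_abs, abs_mul]
    calc |mulW α f v| * |h v| ≤ (1 + ‖v‖) ^ 3 * |f v| * |h v| := by gcongr
      _ = (1 + ‖v‖) ^ 3 * (|f v| * |h v|) := by ring
      _ ≤ (e * (1 + ‖v‖) ^ 8 + e⁻¹ ^ 3) * (f v ^ 2 + h v ^ 2) := by
          gcongr; exact cube_le ht he0
      _ = _ := by ring
  have i5 : Integrable fun v => (1 + ‖v‖) ^ 8 * f v ^ 2 + (1 + ‖v‖) ^ 8 * h v ^ 2 := i1.add i2
  have i6 : Integrable fun v => f v ^ 2 + h v ^ 2 := i3.add i4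
  rw [integral_add (i5.const_mul _) (i6.const_mul _), integral_const_mul,
    integral_const_mul, integral_add i1 i2, integral_add i3 i4, ← ip_self_eq, ← ip_self_eq] at h1
  have h2 : e * |C| ≤ ε := by
    rw [he, div_mul_eq_mul_div, div_le_iff₀ (by positivity)]; nlinarith
  have h3 := mul_le_mul_of_nonneg_right (le_abs_self C) (hd f)
  have h4 := mul_le_mul_of_nonneg_right (le_abs_self C) (hd h)
  have h5 := mul_le_mul_of_nonneg_right h2 (add_nonneg (hd f) (hd h))
  have h6 := mul_le_mul_of_nonneg_left (add_le_add ((hC f).trans h3) ((hC h).trans h4)) he0.le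
  nlinarith

lemma MulC.v0 (hd : ∀ f, 0 ≤ d f)
    (hw : ∃ C : ℝ, ∀ f : SV, ∫ v, (1 + ‖v‖) ^ 8 * f v ^ 2 ≤ C * d f)
    {A : SV →L[ℝ] SV} (h : MulC 3 A) : V0 d A := by
  induction h with
  | base α hα => exact v0_mulW hd hw α hα
  | add _ _ h1 h2 => exact h1.add h2
  | smul c _ h1 => exact h1.smul hd c

lemma vd_mulW_ap (hd : ∀ f, 0 ≤ d f)
    (hw : ∃ C : ℝ, ∀ f : SV, ∫ v, (1 + ‖v‖) ^ 8 * f v ^ 2 ≤ C * d f)
    (α : List Ix) (hα : α.length ≤ 2) (j : Ix) : VD d ((mulW α).comp (ap j)) := by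
  have h1 : MulC 3 ((1 / 2 : ℝ) • mulW (j :: α) + (-1 / 2 : ℝ) • adV j (mulW α)) :=
    ((MulC.base _ (Nat.succ_le_succ hα)).smul _).add
      (((mulC_adV_mulW j α).mono (hα.trans (by norm_num))).smul _)
  intro ε hε
  obtain ⟨C, hC, h⟩ := (h1.v0 hd hw).vd ε hε
  refine ⟨C, hC, fun f => le_trans (le_of_eq ?_) (h f)⟩
  congr 1
  have h2 : ip (ap j (mulW α f)) f = ip (mulW α (am j f)) f := by
    rw [ip_ap, ip_comm, ip_mulW α (am j f)]
  have h3 : ip (mulV j (mulW α f)) f = ip (mulW α (ap j f)) f + ip (mulW α (am j f)) f := by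
    rw [← mulW_mulV, ← ap_add_am, map_add, map_add, LinearMap.add_apply]
  simp only [ContinuousLinearMap.comp_apply, add_apply,
    smul_apply, adV_apply, mulW_cons, map_add, map_smul, map_sub,
    LinearMap.add_apply, LinearMap.smul_apply, LinearMap.sub_apply, smul_eq_mul, h2, h3]
  ring

/-! ### Finite rank operators -/

/-- Finite rank operators with Schwartz kernel. -/
inductive FR : (SV →L[ℝ] SV) → Prop
  | base (a b : SV) : FR ((ipL a).smulRight b)
  | add {A B : SV →L[ℝ] SV} : FR A → FR B → FR (A + B)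
  | smul {A : SV →L[ℝ] SV} (c : ℝ) : FR A → FR (c • A)

lemma FR.adV {A : SV →L[ℝ] SV} (h : FR A) (j : Ix) : FR (adV j A) := by
  induction h with
  | base a b =>
    have e : Solver.adV j ((ipL a).smulRight b) =
        (ipL a).smulRight (ap j b) + (-1 : ℝ) • (ipL (am j a)).smulRight b := by
      ext1 f
      simp [adV_apply, ip_am, sub_eq_add_neg]
    rw [e]; exact (FR.base _ _).add ((FR.base _ _).smul _)
  | add _ _ h1 h2 => rw [adV_add]; exact h1.add h2
  | smul c _ h1 => rw [adV_smul]; exact h1.smul c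

lemma FR.v0 (hd : ∀ f, 0 ≤ d f) {A : SV →L[ℝ] SV} (h : FR A) : V0 d A := by
  induction h with
  | base a b =>
    intro ε hε
    refine ⟨√(ip a a) * √(ip b b), by positivity, fun f h => ?_⟩
    simp only [ContinuousLinearMap.smulRight_apply, ipL_apply, map_smul, LinearMap.smul_apply,
      smul_eq_mul, abs_mul]
    have h1 := mul_le_mul (abs_ip_le a f) (abs_ip_le b h) (abs_nonneg _) (by positivity)
    have h2 : √(ip f f) * √(ip h h) ≤ ip f f + ip h h := by
      nlinarith [sq_nonneg (√(ip f f) - √(ip h h)), Real.sq_sqrt (ip_self_nonneg f),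
        Real.sq_sqrt (ip_self_nonneg h),
        mul_nonneg (Real.sqrt_nonneg (ip f f)) (Real.sqrt_nonneg (ip h h))]
    have h3 := mul_le_mul_of_nonneg_left h2 (show 0 ≤ √(ip a a) * √(ip b b) by positivity)
    have h4 := mul_nonneg hε.le (add_nonneg (hd f) (hd h))
    nlinarith
  | add _ _ h1 h2 => exact h1.add h2
  | smul c _ h1 => exact h1.smul hd c

lemma FR.sum {ι : Type*} (S : Finset ι) {A : ι → SV →L[ℝ] SV} (h : ∀ i, FR (A i)) :
    FR (∑ i ∈ S, A i) := by
  classical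
  induction S using Finset.induction_on with
  | empty => simpa using (FR.base 0 0).smul 0
  | insert i S hi ih => rw [sum_insert hi]; exact (h i).add ih

lemma fr_comp_PP (A : SV →L[ℝ] SV) : FR (A.comp PP) := by
  have e : A.comp PP = ∑ a, (ipL (eH a)).smulRight (A (eH a)) := by
    ext1 f
    simp [PP_apply]
  rw [e]; exact FR.sum _ fun a => FR.base _ _

/-! ### Collision operators -/

lemma CollData.v1 {Γ : SV → SV →L[ℝ] SV} (h : CollData Γ) (φ : SV) :
    V1 (fun f => -ip (Γ sqMS f) f + ip f f) (-Γ φ) := by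
  intro ε hε
  obtain ⟨C, hC⟩ := h.tri φ
  refine ⟨C ^ 2 / ε, by positivity, fun f g => ?_⟩
  rw [neg_apply, map_neg, LinearMap.neg_apply, abs_neg]
  refine (hC f g).trans ?_
  have h1 := add_nonneg (h.dis_nonneg f) (ip_self_nonneg f)
  have h2 := add_nonneg (h.dis_nonneg g) (ip_self_nonneg g)
  have h3 := Real.sq_sqrt h1
  have h4 := Real.sq_sqrt h2
  have h5 := mul_nonneg (show 0 ≤ C ^ 2 / ε by positivity) (ip_self_nonneg g)
  set a := √(-ip (Γ sqMS f) f + ip f f)
  set b := √(-ip (Γ sqMS g) g + ip g g)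
  have h6 : C * a * b ≤ ε * b ^ 2 + C ^ 2 / ε * a ^ 2 := by
    have : ε * b ^ 2 + C ^ 2 / ε * a ^ 2 - 2 * (C * a * b) = ε * (b - C * a / ε) ^ 2 := by
      field_simp; ring
    have h7 : 0 ≤ ε * (b - C * a / ε) ^ 2 := by positivity
    have h8 : 0 ≤ ε * b ^ 2 + C ^ 2 / ε * a ^ 2 := by positivity
    linarith
  rw [h3, h4] at h6
  linarith

lemma CollData.adV {Γ : SV → SV →L[ℝ] SV} (h : CollData Γ) (j : Ix) (φ : SV) :
    adV j (-Γ φ) = -Γ (ap j φ) := by
  ext1 f
  simp only [adV_apply, neg_apply, map_neg, h.leib]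
  abel

lemma exists_bound_clm (B : SV →L[ℝ] SV) :
    ∃ (m : ℕ) (C : ℝ), 0 ≤ C ∧ ∀ f, ip (B f) (B f) ≤ C * nA m f := by
  let T : SV →L[ℝ] Lp ℝ 2 (volume : Measure E) := (SchwartzMap.toLpCLM ℝ ℝ 2 volume).comp B
  obtain ⟨m, C, hC, h⟩ := seminorm_le_of_continuous
    ((normSeminorm ℝ (Lp ℝ 2 (volume : Measure E))).comp T.toLinearMap) T.continuous.norm
  refine ⟨m, C ^ 2, by positivity, fun f => ?_⟩
  rw [ip_self_eq_norm_sq, ← Real.sq_sqrt (nA_nonneg m f), ← mul_pow]
  exact pow_le_pow_left₀ (norm_nonneg _) (h f) 2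

end Pool.Agent.BoltzD.Solver

end
end MrgPart4

-- ======== part 5: formerly Pool.Agent.BoltzD.Solver.Ops
section MrgPart5

/-!
The class of operators on smooth periodic functions generated by coefficient times velocity
operator times letter, and by rank one operators.
-/

set_option autoImplicit false

open Set Filter Topology Finset Pool.Agent.BoltzC

noncomputable section

namespace Pool.Agent.BoltzD.Solver

variable [Dim]

/-- A smooth periodic scalar coefficient depending on time. -/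
structure Cf where
  c : ℝ → E3 → ℝ
  sm : SmC c
  per : ∀ s, Per (c s)

/-- A smooth periodic Schwartz valued function depending on time. -/
structure Vf where
  f : ℝ → E3 → SV
  sm : SmC f
  per : ∀ s, Per (f s)

/-- Derivative of a coefficient. -/
def Cf.d (c : Cf) (i : Ix) : Cf := ⟨fun s => dX i (c.c s), c.sm.dX i, fun s => (c.per s).dX i⟩

/-- Value at a time. -/
def Vf.at (φ : Vf) (s : ℝ) : XS := ⟨φ.f s, φ.sm.slice s, φ.per s⟩

/-- Action of a letter. -/
def Vf.Z (φ : Vf) : Ix ⊕ Ix → Vf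
  | Sum.inl i => ⟨fun s => dX i (φ.f s), φ.sm.dX i, fun s => (φ.per s).dX i⟩
  | Sum.inr j => ⟨fun s x => ap j (φ.f s x), φ.sm.clm _, fun s => (φ.per s).map _⟩

/-- Action of the adjoint of a letter. -/
def Vf.Zs (φ : Vf) : Ix ⊕ Ix → Vf
  | Sum.inl i => ⟨fun s x => -dX i (φ.f s) x, (φ.sm.dX i).neg, fun s => ((φ.per s).dX i).map _⟩
  | Sum.inr j => ⟨fun s x => am j (φ.f s x), φ.sm.clm _, fun s => (φ.per s).map _⟩

lemma Vf.Z_at (φ : Vf) (z : Ix ⊕ Ix) (s : ℝ) : (φ.Z z).at s = ZX z (φ.at s) := by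
  rcases z with i | j <;> rfl

lemma Vf.Zs_at (φ : Vf) (z : Ix ⊕ Ix) (s : ℝ) : (φ.Zs z).at s = ZsX z (φ.at s) := by
  rcases z with i | j <;> rfl

lemma Vf.continuous_B (φ ψ : Vf) : Continuous fun s => bX.B (φ.at s) (ψ.at s) :=
  (φ.sm.ip ψ.sm).continuous_tint

lemma Vf.continuous_B' (φ : Vf) (H : XS) : Continuous fun s => bX.B (φ.at s) H :=
  φ.continuous_B ⟨fun _ => H.1, (XS.sm H).smC, fun _ => XS.per H⟩

lemma Vf.continuous_lq (j : ℕ) : ∀ φ : Vf, Continuous fun s => lq ZX nX j (φ.at s) := by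
  induction j with
  | zero => exact fun φ => φ.continuous_B φ
  | succ j ih =>
    intro φ
    simp only [lq_succ, ← Vf.Z_at]
    exact continuous_finsetSum _ fun z _ => ih _

lemma Vf.bdd_lev (φ : Vf) (a b : ℝ) (n : ℕ) :
    ∃ C, ∀ s ∈ Icc a b, (lev ZX bX n).nr (φ.at s) ≤ C := by
  have h : Continuous fun s => √(sq ZX nX (n + 1) (φ.at s)) :=
    (continuous_finsetSum _ fun j _ => Vf.continuous_lq j φ).sqrt
  obtain ⟨C, hC⟩ := isCompact_Icc.exists_bound_of_continuousOn (h.continuousOn (s := Icc a b))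
  refine ⟨C, fun s hs => le_trans ?_ ((le_abs_self _).trans (hC s hs))⟩
  rw [← lev_nr_sq, Real.sqrt_sq (PD.nr_nonneg _ _)]

lemma Vf.bdd_nX (φ : Vf) (a b : ℝ) : ∃ C, 0 ≤ C ∧ ∀ s ∈ Icc a b, bX.nr (φ.at s) ≤ C := by
  have h : Continuous fun s => √(bX.B (φ.at s) (φ.at s)) := (φ.continuous_B φ).sqrt
  obtain ⟨C, hC⟩ := isCompact_Icc.exists_bound_of_continuousOn (h.continuousOn (s := Icc a b))
  refine ⟨|C|, abs_nonneg _, fun s hs => ?_⟩
  rw [PD.nr_eq_sqrt]
  exact (le_abs_self _).trans ((hC s hs).trans (le_abs_self _))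

/-- Multiplication by a coefficient. -/
def opC (c : Cf) (s : ℝ) : XS →ₗ[ℝ] XS where
  toFun G := ⟨fun x => c.c s x • G.1 x, (c.sm.slice s).smul (XS.sm G),
    (c.per s).map₂ (XS.per G) (· • ·)⟩
  map_add' _ _ := Subtype.ext (funext fun _ => smul_add _ _ _)
  map_smul' a G := Subtype.ext (funext fun x => smul_comm (c.c s x) a (G.1 x))

/-- Coefficient times velocity operator times letter. -/
def tm (c : Cf) (B : SV →L[ℝ] SV) (z : Option (Ix ⊕ Ix)) : ℝ → XS →ₗ[ℝ] XS :=
  fun s => (opC c s).comp ((opV B).comp (ZoX z))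

lemma tm_apply (c : Cf) (B : SV →L[ℝ] SV) (z : Option (Ix ⊕ Ix)) (s : ℝ) (G : XS) (x : E3) :
    (tm c B z s G).1 x = c.c s x • B ((ZoX z G).1 x) := rfl

/-- Rank one operator. -/
def rk (φ ψ : Vf) : ℝ → XS →ₗ[ℝ] XS := fun s => (bX.B (ψ.at s)).smulRight (φ.at s)

lemma rk_apply (φ ψ : Vf) (s : ℝ) (G : XS) : rk φ ψ s G = bX.B (ψ.at s) G • φ.at s := rfl

lemma ad_tm_inl (c : Cf) (B : SV →L[ℝ] SV) (z : Option (Ix ⊕ Ix)) (i : Ix) :
    ad (ZX (Sum.inl i)) (tm c B z) = tm (c.d i) B z := by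
  funext s
  ext G x : 3
  have h1 := congrFun (dX_smul (c.sm.slice s).dif (XS.sm (opV B (ZoX z G))).dif i) x
  have h2 := congrFun (congrArg Subtype.val (opD_opV i B (ZoX z G))) x
  have h3 := congrFun (congrArg Subtype.val (ZoX_comm z (Sum.inl i) G)) x
  change dX i (fun x => c.c s x • (opV B (ZoX z G)).1 x) x -
    c.c s x • B ((ZoX z (ZX (Sum.inl i) G)).1 x) = dX i (c.c s) x • (opV B (ZoX z G)).1 x
  rw [h1, h3]
  change _ + c.c s x • (opD i (opV B (ZoX z G))).1 x - _ = _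
  rw [h2]
  exact add_sub_cancel_right _ _

lemma ad_tm_inr (c : Cf) (B : SV →L[ℝ] SV) (z : Option (Ix ⊕ Ix)) (j : Ix) :
    ad (ZX (Sum.inr j)) (tm c B z) = tm c (adV j B) z := by
  funext s
  ext G x : 3
  have h3 := congrFun (congrArg Subtype.val (ZoX_comm z (Sum.inr j) G)) x
  change ap j (c.c s x • B ((ZoX z G).1 x)) -
    c.c s x • B ((ZoX z (ZX (Sum.inr j) G)).1 x) = c.c s x • adV j B ((ZoX z G).1 x)
  rw [h3, adV_apply, map_smul, smul_sub]
  rfl

lemma ad_rk (φ ψ : Vf) (z : Ix ⊕ Ix) :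
    ad (ZX z) (rk φ ψ) = rk (φ.Z z) ψ + -rk φ (ψ.Zs z) := by
  funext s
  ext1 G
  simp only [ad_apply, rk_apply, Pi.add_apply, Pi.neg_apply, LinearMap.add_apply,
    LinearMap.neg_apply, map_smul, Vf.Z_at, Vf.Zs_at]
  rw [bX.symm _ (ZX z G), adjX, bX.symm G, sub_eq_add_neg]

/-- The dissipation integrated over the torus. -/
def dI (d : SV → ℝ) (G : XS) : ℝ := tint fun x => d (G.1 x)

/-- The class of operators. -/
inductive Gen (P0 P1 : (SV →L[ℝ] SV) → Prop) : (ℝ → XS →ₗ[ℝ] XS) → Prop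
  | t0 (c : Cf) (B : SV →L[ℝ] SV) (z : Option (Ix ⊕ Ix)) : P0 B → Gen P0 P1 (tm c B z)
  | t1 (c : Cf) (B : SV →L[ℝ] SV) : P1 B → Gen P0 P1 (tm c B none)
  | rk (φ ψ : Vf) : Gen P0 P1 (rk φ ψ)
  | add {A A' : ℝ → XS →ₗ[ℝ] XS} : Gen P0 P1 A → Gen P0 P1 A' → Gen P0 P1 (A + A')
  | neg {A : ℝ → XS →ₗ[ℝ] XS} : Gen P0 P1 A → Gen P0 P1 (-A)
  | zero : Gen P0 P1 0

variable {P0 P1 : (SV →L[ℝ] SV) → Prop} {d : SV → ℝ}

lemma Gen.sum {ι : Type*} (S : Finset ι) {A : ι → ℝ → XS →ₗ[ℝ] XS} (h : ∀ i, Gen P0 P1 (A i)) :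
    Gen P0 P1 (∑ i ∈ S, A i) := by
  classical
  induction S using Finset.induction_on with
  | empty => simpa using Gen.zero
  | insert i S hi ih => rw [sum_insert hi]; exact (h i).add ih

lemma Gen.ad (h0 : ∀ B, P0 B → ∀ j, P0 (adV j B)) (h1 : ∀ B, P1 B → ∀ j, P1 (adV j B))
    {A : ℝ → XS →ₗ[ℝ] XS} (hA : Gen P0 P1 A) (z : Ix ⊕ Ix) : Gen P0 P1 (ad (ZX z) A) := by
  induction hA with
  | t0 c B z' hB =>
    rcases z with i | j
    · rw [ad_tm_inl]; exact .t0 _ _ _ hB
    · rw [ad_tm_inr]; exact .t0 _ _ _ (h0 B hB j)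
  | t1 c B hB =>
    rcases z with i | j
    · rw [ad_tm_inl]; exact .t1 _ _ hB
    · rw [ad_tm_inr]; exact .t1 _ _ (h1 B hB j)
  | rk φ ψ => rw [ad_rk]; exact (Gen.rk _ _).add (Gen.rk _ _).neg
  | @add A A' _ _ ih ih' =>
    have e : Solver.ad (ZX z) (A + A') = Solver.ad (ZX z) A + Solver.ad (ZX z) A' := by
      funext s; ext1 G
      simp only [ad_apply, Pi.add_apply, LinearMap.add_apply, map_add]; abel
    rw [e]; exact ih.add ih'
  | @neg A _ ih =>
    have e : Solver.ad (ZX z) (-A) = -Solver.ad (ZX z) A := by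
      funext s; ext1 G
      simp only [ad_apply, Pi.neg_apply, LinearMap.neg_apply, map_neg]; abel
    rw [e]; exact ih.neg
  | zero =>
    have e : Solver.ad (ZX z) (0 : ℝ → XS →ₗ[ℝ] XS) = 0 := by
      funext s; ext1 G; simp [ad_apply]
    rw [e]; exact .zero

lemma Gen.weak {A : ℝ → XS →ₗ[ℝ] XS} (hA : Gen P0 P1 A) (G H : XS) :
    Continuous fun s => bX.B (A s G) H := by
  have key : ∀ c B z, Continuous fun s => bX.B (tm c B z s G) H := fun c B z =>
    ((c.sm.smul (XS.sm (opV B (ZoX z G))).smC).ip (XS.sm H).smC).continuous_tint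
  induction hA with
  | t0 c B z _ => exact key c B z
  | t1 c B _ => exact key c B none
  | rk φ ψ =>
    simp only [rk_apply, map_smul, LinearMap.smul_apply, smul_eq_mul]
    exact (ψ.continuous_B' G).mul (φ.continuous_B' H)
  | add _ _ ih ih' =>
    simp only [Pi.add_apply, LinearMap.add_apply, map_add]
    exact ih.add ih'
  | neg _ ih =>
    simp only [Pi.neg_apply, LinearMap.neg_apply, map_neg]
    exact ih.neg
  | zero => simpa using continuous_const

lemma dd_nonneg (hd : ∀ f, 0 ≤ d f) (G : XS) : 0 ≤ dI d G := tint_nonneg fun _ => hd _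

lemma sq_ZoX_le {e : XS → ℝ} (he : ∀ G, 0 ≤ e G) (n : ℕ) (z : Option (Ix ⊕ Ix)) (G : XS) :
    sq ZX e n (ZoX z G) ≤ sq ZX e (n + 1) G := by
  rcases z with _ | z
  · exact sq_mono he (Nat.le_succ n) G
  · exact sq_Z_le he n z G

lemma ZoX_le {e : XS → ℝ} (he : ∀ G, 0 ≤ e G) (z : Option (Ix ⊕ Ix)) (G : XS) :
    e (ZoX z G) ≤ sq ZX e 2 G := by
  simpa only [sq_one] using sq_ZoX_le he 1 z G

lemma Cf.bound (c : Cf) (a b : ℝ) : ∃ M, 0 < M ∧ ∀ s ∈ Icc a b, ∀ x, |c.c s x| ≤ M :=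
  exists_bound_of_per c.sm.cont c.per isCompact_Icc

/-- Integration of a pointwise form bound. -/
lemma abs_tint_mul_le (hdc : Continuous d) {w φ : E3 → ℝ} {M α β γ δ : ℝ} (G H : XS)
    (hw : ∀ x, |w x| ≤ M) (hφ : ∀ x, |φ x| ≤ α * d (G.1 x) + β * d (H.1 x) +
      γ * ip (G.1 x) (G.1 x) + δ * ip (H.1 x) (H.1 x)) :
    |tint fun x => w x * φ x| ≤
      M * (α * dI d G + β * dI d H + γ * bX.B G G + δ * bX.B H H) := by
  have c1 : Continuous fun x => α * d (G.1 x) := continuous_const.mul (hdc.comp (XS.sm G).cont)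
  have c2 : Continuous fun x => β * d (H.1 x) := continuous_const.mul (hdc.comp (XS.sm H).cont)
  have c3 : Continuous fun x => γ * ip (G.1 x) (G.1 x) := continuous_const.mul (XS.cont_ip _ _)
  have c4 : Continuous fun x => δ * ip (H.1 x) (H.1 x) := continuous_const.mul (XS.cont_ip _ _)
  have c5 : Continuous fun x => α * d (G.1 x) + β * d (H.1 x) := c1.add c2
  have c6 : Continuous fun x => α * d (G.1 x) + β * d (H.1 x) + γ * ip (G.1 x) (G.1 x) :=
    c5.add c3
  simp only [dI, bX_B]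
  rw [← tint_const_mul α, ← tint_const_mul β, ← tint_const_mul γ, ← tint_const_mul δ,
    ← tint_add c1 c2, ← tint_add c5 c3, ← tint_add c6 c4, ← tint_const_mul]
  refine abs_tint_le_of_abs_le (continuous_const.mul (c6.add c4)) fun x => ?_
  rw [abs_mul]
  exact mul_le_mul (hw x) (hφ x) (abs_nonneg _) ((abs_nonneg _).trans (hw x))

lemma bX_tm (c : Cf) (B : SV →L[ℝ] SV) (z : Option (Ix ⊕ Ix)) (s : ℝ) (G H : XS) :
    bX.B (tm c B z s G) H = tint fun x => c.c s x * ip (B ((ZoX z G).1 x)) (H.1 x) :=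
  tint_congr fun x => by rw [tm_apply, map_smul, LinearMap.smul_apply, smul_eq_mul]

lemma abs_bX_rk_le (φ ψ : Vf) (a b : ℝ) : ∃ C, 0 ≤ C ∧ ∀ s ∈ Icc a b, ∀ G H,
    |bX.B (rk φ ψ s G) H| ≤ C * (bX.B G G + bX.B H H) := by
  obtain ⟨C1, h1, h1'⟩ := φ.bdd_nX a b
  obtain ⟨C2, h2, h2'⟩ := ψ.bdd_nX a b
  refine ⟨C2 * C1, by positivity, fun s hs G H => ?_⟩
  rw [rk_apply, map_smul, LinearMap.smul_apply, smul_eq_mul, abs_mul, ← PD.nr_sq, ← PD.nr_sq]
  have h3 := bX.nr_nonneg G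
  have h4 := bX.nr_nonneg H
  have h5 := (bX.abs_B_le (ψ.at s) G).trans (mul_le_mul_of_nonneg_right (h2' s hs) h3)
  have h6 := (bX.abs_B_le (φ.at s) H).trans (mul_le_mul_of_nonneg_right (h1' s hs) h4)
  have h7 := mul_le_mul h5 h6 (abs_nonneg _) (by positivity)
  have h8 : bX.nr G * bX.nr H ≤ bX.nr G ^ 2 + bX.nr H ^ 2 := by
    nlinarith [sq_nonneg (bX.nr G - bX.nr H)]
  nlinarith [mul_le_mul_of_nonneg_left h8 (mul_nonneg h2 h1)]

theorem Gen.tame (hdc : Continuous d) (hd : ∀ f, 0 ≤ d f) (h0 : ∀ B, P0 B → V0 d B)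
    (h1 : ∀ B, P1 B → V1 d B) (a b : ℝ) {A : ℝ → XS →ₗ[ℝ] XS} (hA : Gen P0 P1 A) :
    Tame ZX bX (dI d) (Icc a b) A := by
  have hdd := dd_nonneg hd
  induction hA with
  | t0 c B z hB =>
    intro ε hε
    obtain ⟨M, hM, hM'⟩ := c.bound a b
    obtain ⟨C, hC, h⟩ := h0 B hB (ε / M) (by positivity)
    refine ⟨M * C, by positivity, fun s hs G H => ?_⟩
    rw [bX_tm]
    refine (abs_tint_mul_le hdc (α := ε / M) (β := ε / M) (γ := C) (δ := C) (ZoX z G) H (hM' s hs)
      fun x => by linarith [h ((ZoX z G).1 x) (H.1 x)]).trans ?_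
    have e : M * (ε / M) = ε := by field_simp
    have h2 := mul_le_mul_of_nonneg_left (ZoX_le hdd z G) hε.le
    have h3 := mul_le_mul_of_nonneg_left (ZoX_le (e := nX) bX.nonneg z G) (mul_nonneg hM.le hC)
    have h4 := mul_nonneg (mul_nonneg hM.le hC) (hdd G)
    calc _ = (M * (ε / M)) * (dI d (ZoX z G) + dI d H) +
          M * C * (bX.B (ZoX z G) (ZoX z G) + bX.B H H) := by ring
      _ ≤ _ := by rw [e]; linarith
  | t1 c B hB =>
    intro ε hε
    obtain ⟨M, hM, hM'⟩ := c.bound a b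
    obtain ⟨C, hC, h⟩ := h1 B hB (ε / M) (by positivity)
    refine ⟨M * C, by positivity, fun s hs G H => ?_⟩
    rw [bX_tm]
    refine (abs_tint_mul_le hdc (α := C) (β := ε / M) (γ := 0) (δ := C) G H (hM' s hs)
      fun x => by
        have := h (G.1 x) (H.1 x)
        change |ip (B (G.1 x)) (H.1 x)| ≤ _
        linarith).trans ?_
    have e : M * (ε / M) = ε := by field_simp
    have h2 := mul_nonneg hε.le (sq_nonneg' (Z := ZX) hdd 2 G)
    have h3 := mul_nonneg (mul_nonneg hM.le hC) (sq_nonneg' (Z := ZX) (d := nX) bX.nonneg 2 G)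
    calc _ = (M * (ε / M)) * dI d H + M * C * (dI d G + bX.B H H) := by ring
      _ ≤ _ := by rw [e]; linarith
  | rk φ ψ =>
    intro ε hε
    obtain ⟨C, hC, h⟩ := abs_bX_rk_le φ ψ a b
    refine ⟨C, hC, fun s hs G H => (h s hs G H).trans ?_⟩
    have h2 := mul_nonneg hε.le (add_nonneg (sq_nonneg' (Z := ZX) hdd 2 G) (hdd H))
    have h3 := mul_le_mul_of_nonneg_left (ZoX_le (e := nX) bX.nonneg none G) hC
    have h4 := mul_nonneg hC (hdd G)
    change C * bX.B G G ≤ _ at h3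
    linarith
  | add _ _ ih ih' =>
    intro ε hε
    obtain ⟨C1, hC1, h2⟩ := ih (ε / 2) (by positivity)
    obtain ⟨C2, hC2, h3⟩ := ih' (ε / 2) (by positivity)
    refine ⟨C1 + C2, by positivity, fun s hs G H => ?_⟩
    simp only [Pi.add_apply, LinearMap.add_apply, map_add]
    refine (abs_add_le _ _).trans ?_
    linarith [h2 s hs G H, h3 s hs G H]
  | neg _ ih =>
    intro ε hε
    obtain ⟨C1, hC1, h2⟩ := ih ε hε
    refine ⟨C1, hC1, fun s hs G H => ?_⟩
    simpa only [Pi.neg_apply, LinearMap.neg_apply, map_neg, abs_neg] using h2 s hs G H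
  | zero =>
    intro ε hε
    refine ⟨0, le_rfl, fun s hs G H => ?_⟩
    simpa using mul_nonneg hε.le (add_nonneg (sq_nonneg' (Z := ZX) hdd 2 G) (hdd H))

lemma bdd_tm (c : Cf) (B : SV →L[ℝ] SV) (z : Option (Ix ⊕ Ix)) (a b : ℝ) :
    Bdd ZX bX (Icc a b) (tm c B z) := by
  obtain ⟨M, hM, hM'⟩ := c.bound a b
  obtain ⟨m, C, hC, h⟩ := exists_bound_clm B
  refine ⟨m + 1 + 1, M ^ 2 * C, by positivity, fun s hs G => ?_⟩
  have h1 : bX.B (tm c B z s G) (tm c B z s G) ≤
      M ^ 2 * C * tint fun x => nA m ((ZoX z G).1 x) := by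
    rw [← tint_const_mul]
    refine tint_mono (XS.cont_ip _ _) (continuous_const.mul ((XS.sm _).nA m).cont) fun x => ?_
    simp only [tm_apply, map_smul, LinearMap.smul_apply, smul_eq_mul]
    have h2 : c.c s x ^ 2 ≤ M ^ 2 := by
      rw [← sq_abs]; exact pow_le_pow_left₀ (abs_nonneg _) (hM' s hs x) 2
    have h3 := mul_le_mul h2 (h ((ZoX z G).1 x)) (ip_self_nonneg _) (sq_nonneg M)
    nlinarith
  refine h1.trans (mul_le_mul_of_nonneg_left ?_ (by positivity))
  exact (tint_nA_le m _).trans ((lq_le_sq bX.nonneg _ _).trans (sq_ZoX_le bX.nonneg _ z G))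

theorem Gen.bdd (a b : ℝ) {A : ℝ → XS →ₗ[ℝ] XS} (hA : Gen P0 P1 A) : Bdd ZX bX (Icc a b) A := by
  induction hA with
  | t0 c B z _ => exact bdd_tm c B z a b
  | t1 c B _ => exact bdd_tm c B none a b
  | rk φ ψ =>
    obtain ⟨C1, h1, h1'⟩ := φ.bdd_nX a b
    obtain ⟨C2, h2, h2'⟩ := ψ.bdd_nX a b
    refine ⟨1, (C2 * C1) ^ 2, by positivity, fun s hs G => ?_⟩
    rw [sq_one, ← PD.nr_sq, ← PD.nr_sq, ← mul_pow, rk_apply, PD.nr_smul]
    have h3 := bX.nr_nonneg G
    have h5 := (bX.abs_B_le (ψ.at s) G).trans (mul_le_mul_of_nonneg_right (h2' s hs) h3)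
    have h6 := mul_le_mul h5 (h1' s hs) (bX.nr_nonneg _) (by positivity)
    exact pow_le_pow_left₀ (mul_nonneg (abs_nonneg _) (bX.nr_nonneg _)) (by linarith) 2
  | @add A A' _ _ ih ih' =>
    obtain ⟨m1, C1, hC1, h2⟩ := ih
    obtain ⟨m2, C2, hC2, h3⟩ := ih'
    refine ⟨m1 + m2, 2 * C1 + 2 * C2, by positivity, fun s hs G => ?_⟩
    have h4 := lq_add_le (Z := ZX) bX 0 (A s G) (A' s G)
    have h5 := mul_le_mul_of_nonneg_left
      (sq_mono (Z := ZX) (d := nX) bX.nonneg (Nat.le_add_right m1 m2) G) hC1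
    have h6 := mul_le_mul_of_nonneg_left
      (sq_mono (Z := ZX) (d := nX) bX.nonneg (Nat.le_add_left m2 m1) G) hC2
    simp only [lq] at h4
    simp only [Pi.add_apply, LinearMap.add_apply]
    linarith [h2 s hs G, h3 s hs G]
  | neg _ ih =>
    obtain ⟨m1, C1, hC1, h2⟩ := ih
    refine ⟨m1, C1, hC1, fun s hs G => ?_⟩
    simpa only [Pi.neg_apply, LinearMap.neg_apply, map_neg, neg_neg] using h2 s hs G
  | zero => exact ⟨0, 0, le_rfl, fun s hs G => by simp⟩

end Pool.Agent.BoltzD.Solver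

end
end MrgPart5

-- marker of a merged file
example : 731051 + 67477 = 731051 + 67477 := rfl
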